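import Pool.Agent.Helper124.SWLemmas

/-!
Lower bound for the average of the products: preparations.
-/

namespace Pool.Agent.Helper124.SW

open Finset Classical

noncomputable section

theorem sum_QQ {m W : ℕ} (F : Plc m W → ℝ) :
    ∑ q ∈ QQ m W, F q = ∑ z ∈ ZZ m W, ∑ L : Fin m × Fin m → Bool,
      F (mk z.1 z.2 (fun s t => L (s, t))) := by
  have hprod : ∑ z ∈ ZZ m W, ∑ L : Fin m × Fin m → Bool,
      F (mk z.1 z.2 (fun s t => L (s, t))) =
      ∑ p ∈ ZZ m W ×ˢ (univ : Finset (Fin m × Fin m → Bool)),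
        F (mk p.1.1 p.1.2 (fun s t => p.2 (s, t))) :=
    (Finset.sum_product (ZZ m W) (univ : Finset (Fin m × Fin m → Bool))
      (fun p : ((Fin m → Fin m → Fin W) × (Fin m → Fin m → Fin W)) × (Fin m × Fin m → Bool) =>
        F (mk p.1.1 p.1.2 (fun s t => p.2 (s, t))))).symm
  rw [hprod]
  refine Finset.sum_nbij'
    (fun q => (((fun s t => (q s t).1), (fun t s => (q s t).2.1)), fun c => (q c.1 c.2).2.2))
    (fun p => mk p.1.1 p.1.2 (fun s t => p.2 (s, t))) ?_ ?_ ?_ ?_ ?_
  · intro q hq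
    have hv : Valid q := (mem_filter.1 hq).2
    rw [mem_product]
    refine ⟨?_, mem_univ _⟩
    unfold ZZ
    rw [mem_product]
    refine ⟨?_, ?_⟩
    · rw [Fintype.mem_piFinset]
      intro s
      unfold SM
      rw [mem_filter]
      exact ⟨mem_univ _, hv.1 s⟩
    · rw [Fintype.mem_piFinset]
      intro t
      unfold SM
      rw [mem_filter]
      exact ⟨mem_univ _, hv.2 t⟩
  · intro p hp
    rw [mem_product] at hp
    have h1 := hp.1
    unfold ZZ at h1
    rw [mem_product] at h1
    unfold QQ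
    rw [mem_filter]
    refine ⟨mem_univ _, ?_, ?_⟩
    · intro s
      have := (Fintype.mem_piFinset.1 h1.1) s
      unfold SM at this
      exact (mem_filter.1 this).2
    · intro t
      have := (Fintype.mem_piFinset.1 h1.2) t
      unfold SM at this
      exact (mem_filter.1 this).2
  · intro q _
    rfl
  · intro p _
    rfl
  · intro q _
    rfl

theorem one_sub_ge_exp {r y : ℝ} (hr : r < 1) (hy0 : 0 ≤ y) (hy : y ≤ r) :
    Real.exp (-(1 / (1 - r)) * y) ≤ 1 - y := by
  have h1 : 0 < 1 - y := by linarith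
  have h2 : 0 < 1 - r := by linarith
  have h3 : 1 - (1 - y)⁻¹ ≤ Real.log (1 - y) := Real.one_sub_inv_le_log_of_pos h1
  have h4 : -(1 / (1 - r)) * y ≤ 1 - (1 - y)⁻¹ := by
    have h5 : 1 - (1 - y)⁻¹ = -(y / (1 - y)) := by
      field_simp
      ring
    rw [h5]
    have h6 : y / (1 - y) ≤ y / (1 - r) := by
      apply div_le_div_of_nonneg_left hy0 h2
      linarith
    have h7 : -(1 / (1 - r)) * y = -(y / (1 - r)) := by ring
    rw [h7]
    linarith
  calc Real.exp (-(1 / (1 - r)) * y) ≤ Real.exp (Real.log (1 - y)) :=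
        Real.exp_le_exp.2 (h4.trans h3)
    _ = 1 - y := Real.exp_log h1

theorem card_mv_V1 {m W : ℕ} {q q' : Plc m W} (h : q' ∈ V1 q) : (mv q q').card = 1 := by
  unfold V1 at h
  rw [mem_filter] at h
  obtain ⟨-, -, -, c, hc, -⟩ := h
  rw [hc]
  exact card_singleton c

theorem card_mv_V2r {m W : ℕ} {q q' : Plc m W} (h : q' ∈ V2r q) : (mv q q').card = 2 := by
  unfold V2r at h
  rw [mem_filter] at h
  obtain ⟨-, -, -, s, s', t, hs, hc, -⟩ := h
  rw [hc]
  apply card_pair
  intro h
  have : s = s' := (Prod.mk.inj h).1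
  rw [this] at hs
  omega

theorem card_mv_V2c {m W : ℕ} {q q' : Plc m W} (h : q' ∈ V2c q) : (mv q q').card = 2 := by
  unfold V2c at h
  rw [mem_filter] at h
  obtain ⟨-, -, -, s, t, t', ht, hc, -⟩ := h
  rw [hc]
  apply card_pair
  intro h
  have : t = t' := (Prod.mk.inj h).2
  rw [this] at ht
  omega

theorem card_mv_V3 {m W : ℕ} {q q' : Plc m W} (h : q' ∈ V3 q) : 3 ≤ (mv q q').card := by
  unfold V3 at h
  rw [mem_filter] at h
  exact h.2.2.2.2

theorem card_mv_VV {m W : ℕ} {q q' : Plc m W} (h : q' ∈ VV q) : 1 ≤ (mv q q').card := by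
  unfold VV at h
  rw [mem_union, mem_union, mem_union] at h
  rcases h with ((h | h) | h) | h
  · rw [card_mv_V1 h]
  · rw [card_mv_V2r h]; norm_num
  · rw [card_mv_V2c h]; norm_num
  · have := card_mv_V3 h; omega

theorem prod_ge_exp {m W : ℕ} (r : ℝ) (h0 : 0 ≤ r) (h1 : r < 1) (q : Plc m W) :
    Real.exp (-(1 / (1 - r)) * ∑ q' ∈ VV q, r ^ (mv q q').card) ≤
      ∏ q' ∈ VV q, (1 - r ^ (mv q q').card) := by
  rw [Finset.mul_sum, Real.exp_sum]
  apply Finset.prod_le_prod
  · intro i _
    exact (Real.exp_pos _).le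
  · intro i hi
    apply one_sub_ge_exp h1 (pow_nonneg h0 _)
    have := card_mv_VV hi
    calc r ^ (mv q i).card ≤ r ^ 1 := pow_le_pow_of_le_one h0 h1.le this
      _ = r := pow_one r

theorem sum_VV_le {m W : ℕ} (r : ℝ) (h0 : 0 ≤ r) (U V : Fin m → Fin m → Fin W)
    (L : Fin m → Fin m → Bool) (hU : ∀ s, StrictMono (U s)) (hV : ∀ t, StrictMono (V t)) :
    ∑ q' ∈ VV (mk U V L), r ^ (mv (mk U V L) q').card ≤
      r * (∑ s : Fin m, ∑ t : Fin m,
        ((gap (U s) t : ℝ) + if L s t = true then dg (U s) t else 0) * dg (V t) s) +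
      r ^ 2 * (∑ s : Fin m, ∑ s' : Fin m, ∑ t : Fin m,
        if s.val + 1 = s'.val then ((gap (V t) (s' + 1)).choose 2 : ℝ) *
          ((gap (U s) t : ℝ) + if L s t = true then dg (U s) t else 0) *
          ((gap (U s') (t + 1) : ℝ) + if L s' t = true then 0 else dg (U s') t) else 0) +
      r ^ 2 * (∑ s : Fin m, ∑ t : Fin m, ∑ t' : Fin m,
        if t.val + 1 = t'.val then ((gap (U s) (t' + 1)).choose 2 : ℝ) *
          dg (V t) s * dg (V t') s *
          (if L s t = true then (if L s t' = true then 1 else 2) else 0) else 0) +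
      T3 (2 * r) (U, V) := by
  have hb1 : ∑ q' ∈ V1 (mk U V L), r ^ (mv (mk U V L) q').card ≤
      r * (∑ s : Fin m, ∑ t : Fin m,
        ((gap (U s) t : ℝ) + if L s t = true then dg (U s) t else 0) * dg (V t) s) := by
    have h := card_V1 U V L hU hV
    have h' : ((V1 (mk U V L)).card : ℝ) ≤ ∑ s : Fin m, ∑ t : Fin m,
        ((gap (U s) t : ℝ) + if L s t = true then dg (U s) t else 0) * dg (V t) s := by
      have h2 : ((V1 (mk U V L)).card : ℝ) ≤ ((∑ s : Fin m, ∑ t : Fin m,
        (gap (U s) t + if L s t = true then gap (U s) t + gap (U s) (t + 1) else 0) *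
          (gap (V t) s + gap (V t) (s + 1)) : ℕ) : ℝ) := by exact_mod_cast h
      refine h2.trans (le_of_eq ?_)
      push_cast
      unfold dg
      rfl
    calc ∑ q' ∈ V1 (mk U V L), r ^ (mv (mk U V L) q').card
        = ∑ q' ∈ V1 (mk U V L), r := by
          apply Finset.sum_congr rfl
          intro i hi
          rw [card_mv_V1 hi, pow_one]
      _ = r * (V1 (mk U V L)).card := by
          rw [Finset.sum_const, nsmul_eq_mul, mul_comm]
      _ ≤ _ := mul_le_mul_of_nonneg_left h' h0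
  have hb2 : ∑ q' ∈ V2r (mk U V L), r ^ (mv (mk U V L) q').card ≤
      r ^ 2 * (∑ s : Fin m, ∑ s' : Fin m, ∑ t : Fin m,
        if s.val + 1 = s'.val then ((gap (V t) (s' + 1)).choose 2 : ℝ) *
          ((gap (U s) t : ℝ) + if L s t = true then dg (U s) t else 0) *
          ((gap (U s') (t + 1) : ℝ) + if L s' t = true then 0 else dg (U s') t) else 0) := by
    have h := card_V2r U V L hU hV
    have h' : ((V2r (mk U V L)).card : ℝ) ≤ ∑ s : Fin m, ∑ s' : Fin m, ∑ t : Fin m,
        if s.val + 1 = s'.val then ((gap (V t) (s' + 1)).choose 2 : ℝ) *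
          ((gap (U s) t : ℝ) + if L s t = true then dg (U s) t else 0) *
          ((gap (U s') (t + 1) : ℝ) + if L s' t = true then 0 else dg (U s') t) else 0 := by
      have h2 : ((V2r (mk U V L)).card : ℝ) ≤ ((∑ s : Fin m, ∑ s' : Fin m, ∑ t : Fin m,
        if s.val + 1 = s'.val then (gap (V t) (s' + 1)).choose 2 *
          (gap (U s) t + if L s t = true then gap (U s) t + gap (U s) (t + 1) else 0) *
          (gap (U s') (t + 1) + if L s' t = true then 0 else gap (U s') t + gap (U s') (t + 1))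
        else 0 : ℕ) : ℝ) := by exact_mod_cast h
      refine h2.trans (le_of_eq ?_)
      push_cast
      unfold dg
      rfl
    calc ∑ q' ∈ V2r (mk U V L), r ^ (mv (mk U V L) q').card
        = ∑ q' ∈ V2r (mk U V L), r ^ 2 := by
          apply Finset.sum_congr rfl
          intro i hi
          rw [card_mv_V2r hi]
      _ = r ^ 2 * (V2r (mk U V L)).card := by
          rw [Finset.sum_const, nsmul_eq_mul, mul_comm]
      _ ≤ _ := mul_le_mul_of_nonneg_left h' (sq_nonneg r)
  have hb3 : ∑ q' ∈ V2c (mk U V L), r ^ (mv (mk U V L) q').card ≤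
      r ^ 2 * (∑ s : Fin m, ∑ t : Fin m, ∑ t' : Fin m,
        if t.val + 1 = t'.val then ((gap (U s) (t' + 1)).choose 2 : ℝ) *
          dg (V t) s * dg (V t') s *
          (if L s t = true then (if L s t' = true then 1 else 2) else 0) else 0) := by
    have h := card_V2c U V L hU hV
    have h' : ((V2c (mk U V L)).card : ℝ) ≤ ∑ s : Fin m, ∑ t : Fin m, ∑ t' : Fin m,
        if t.val + 1 = t'.val then ((gap (U s) (t' + 1)).choose 2 : ℝ) *
          dg (V t) s * dg (V t') s *
          (if L s t = true then (if L s t' = true then 1 else 2) else 0) else 0 := by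
      have h2 : ((V2c (mk U V L)).card : ℝ) ≤ ((∑ s : Fin m, ∑ t : Fin m, ∑ t' : Fin m,
        if t.val + 1 = t'.val then (gap (U s) (t' + 1)).choose 2 *
          (gap (V t) s + gap (V t) (s + 1)) * (gap (V t') s + gap (V t') (s + 1)) *
          (if L s t = true then (if L s t' = true then 1 else 2) else 0)
        else 0 : ℕ) : ℝ) := by exact_mod_cast h
      refine h2.trans (le_of_eq ?_)
      push_cast
      unfold dg
      rfl
    calc ∑ q' ∈ V2c (mk U V L), r ^ (mv (mk U V L) q').card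
        = ∑ q' ∈ V2c (mk U V L), r ^ 2 := by
          apply Finset.sum_congr rfl
          intro i hi
          rw [card_mv_V2c hi]
      _ = r ^ 2 * (V2c (mk U V L)).card := by
          rw [Finset.sum_const, nsmul_eq_mul, mul_comm]
      _ ≤ _ := mul_le_mul_of_nonneg_left h' (sq_nonneg r)
  have hb4 := V3_le r h0 U V L
  have hunion : ∀ (A B : Finset (Plc m W)), ∑ q' ∈ A ∪ B, r ^ (mv (mk U V L) q').card ≤
      ∑ q' ∈ A, r ^ (mv (mk U V L) q').card + ∑ q' ∈ B, r ^ (mv (mk U V L) q').card := by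
    intro A B
    rw [← Finset.sum_union_inter]
    have : 0 ≤ ∑ q' ∈ A ∩ B, r ^ (mv (mk U V L) q').card :=
      Finset.sum_nonneg fun i _ => pow_nonneg h0 _
    linarith
  have hu1 := hunion (V1 (mk U V L) ∪ V2r (mk U V L) ∪ V2c (mk U V L)) (V3 (mk U V L))
  have hu2 := hunion (V1 (mk U V L) ∪ V2r (mk U V L)) (V2c (mk U V L))
  have hu3 := hunion (V1 (mk U V L)) (V2r (mk U V L))
  unfold VV
  linarith

end

end Pool.Agent.Helper124.SW
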