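import Pool.Agent.Helper124.SWAvg1

/-!
Lower bound for the average of the products: Jensen step.
-/

namespace Pool.Agent.Helper124.SW

open Finset Classical

noncomputable section

/-- interactions: in horizontal strips and in vertical strips -/
abbrev EE (m : ℕ) := (Fin m × Fin m × Fin m) ⊕ (Fin m × Fin m × Fin m)

def Ecell1 {m : ℕ} : EE m → Fin m × Fin m
  | Sum.inl (s, _, t) => (s, t)
  | Sum.inr (s, t, _) => (s, t)

def Ecell2 {m : ℕ} : EE m → Fin m × Fin m
  | Sum.inl (_, s', t) => (s', t)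
  | Sum.inr (s, _, t') => (s, t')

def Eok {m : ℕ} : EE m → Prop
  | Sum.inl (s, s', _) => s.val + 1 = s'.val
  | Sum.inr (_, t, t') => t.val + 1 = t'.val

def Ealpha {m W : ℕ} (κ r : ℝ) (z : (Fin m → Fin m → Fin W) × (Fin m → Fin m → Fin W)) :
    EE m → Bool → ℝ
  | Sum.inl (s, s', t), l => κ * r ^ 2 * ((gap (z.2 t) (s' + 1)).choose 2 : ℝ) *
      ((gap (z.1 s) t : ℝ) + if l = true then dg (z.1 s) t else 0)
  | Sum.inr (s, t, t'), l => κ * r ^ 2 * ((gap (z.1 s) (t' + 1)).choose 2 : ℝ) *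
      dg (z.2 t) s * dg (z.2 t') s * (if l = true then 1 else 0)

def Ebeta {m W : ℕ} (z : (Fin m → Fin m → Fin W) × (Fin m → Fin m → Fin W)) :
    EE m → Bool → ℝ
  | Sum.inl (_, s', t), l => (gap (z.1 s') (t + 1) : ℝ) + if l = true then 0 else dg (z.1 s') t
  | Sum.inr (_, _, _), l => if l = true then 1 else 2

theorem dg_nonneg {m W : ℕ} (f : Fin m → Fin W) (i : ℕ) : 0 ≤ dg f i := by
  unfold dg
  positivity

/-- the exponent before averaging -/
def XX {m W : ℕ} (κ r : ℝ) (z : (Fin m → Fin m → Fin W) × (Fin m → Fin m → Fin W)) : ℝ :=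
  (∑ s : Fin m, ∑ t : Fin m, (-(κ * r * (((gap (z.1 s) t : ℝ) + dg (z.1 s) t / 2) * dg (z.2 t) s)) +
    Real.log (Real.cosh (κ * r / 2 * (dg (z.1 s) t * dg (z.2 t) s))))) -
  (∑ s : Fin m, ∑ s' : Fin m, ∑ t : Fin m, if s.val + 1 = s'.val then
    κ * r ^ 2 * (((gap (z.2 t) (s' + 1)).choose 2 : ℝ) *
      ((gap (z.1 s) t : ℝ) + dg (z.1 s) t / 2) * ((gap (z.1 s') (t + 1) : ℝ) + dg (z.1 s') t / 2) *
      ((1 + κ * r / 2 * (dg (z.1 s) t * dg (z.2 t) s)) *
        (1 + κ * r / 2 * (dg (z.1 s') t * dg (z.2 t) s')))) else 0) -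
  (∑ s : Fin m, ∑ t : Fin m, ∑ t' : Fin m, if t.val + 1 = t'.val then
    κ * r ^ 2 * (((gap (z.1 s) (t' + 1)).choose 2 : ℝ) * dg (z.2 t) s * dg (z.2 t') s * (3 / 4) *
      ((1 + κ * r / 2 * (dg (z.1 s) t * dg (z.2 t) s)) *
        (1 + κ * r / 2 * (dg (z.1 s) t' * dg (z.2 t') s)))) else 0) -
  κ * T3 (2 * r) z

theorem sum_Eok {m : ℕ} (F : EE m → ℝ) :
    ∑ e ∈ univ.filter (Eok (m := m)), F e =
      (∑ s : Fin m, ∑ s' : Fin m, ∑ t : Fin m, if s.val + 1 = s'.val then F (Sum.inl (s, s', t))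
        else 0) +
      (∑ s : Fin m, ∑ t : Fin m, ∑ t' : Fin m, if t.val + 1 = t'.val then F (Sum.inr (s, t, t'))
        else 0) := by
  rw [Finset.sum_filter, Fintype.sum_sum_type]
  congr 1
  · rw [Fintype.sum_prod_type]
    apply Finset.sum_congr rfl
    intro s _
    rw [Fintype.sum_prod_type]
    apply Finset.sum_congr rfl
    intro s' _
    apply Finset.sum_congr rfl
    intro t _
    by_cases h : s.val + 1 = s'.val
    · rw [if_pos h, if_pos (show Eok (Sum.inl (s, s', t)) from h)]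
    · rw [if_neg h, if_neg (show ¬ Eok (Sum.inl (s, s', t)) from h)]
  · rw [Fintype.sum_prod_type]
    apply Finset.sum_congr rfl
    intro s _
    rw [Fintype.sum_prod_type]
    apply Finset.sum_congr rfl
    intro s' _
    apply Finset.sum_congr rfl
    intro t _
    by_cases h : s'.val + 1 = t.val
    · rw [if_pos h, if_pos (show Eok (Sum.inr (s, s', t)) from h)]
    · rw [if_neg h, if_neg (show ¬ Eok (Sum.inr (s, s', t)) from h)]

theorem avg_step (m W : ℕ) (r : ℝ) (h0 : 0 ≤ r) (h1 : r < 1) (hne : (ZZ m W).Nonempty) :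
    ((ZZ m W).card : ℝ) * 2 ^ (m * m) * Real.exp (((ZZ m W).card : ℝ)⁻¹ *
      ∑ z ∈ ZZ m W, XX (1 / (1 - r)) r z) ≤
    ∑ q ∈ QQ m W, ∏ q' ∈ VV q, (1 - r ^ (mv q q').card) := by
  set κ : ℝ := 1 / (1 - r) with hκ
  have hκ0 : 0 ≤ κ := by rw [hκ]; apply div_nonneg zero_le_one; linarith
  have hJ := jensen_tilt (C := Fin m × Fin m) (ZZ m W) hne
    (fun z c => κ * r * ((gap (z.1 c.1) c.2 : ℝ) * dg (z.2 c.2) c.1))
    (fun z c => κ * r * (((gap (z.1 c.1) c.2 : ℝ) + dg (z.1 c.1) c.2) * dg (z.2 c.2) c.1))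
    (by
      intro z _ c
      apply mul_le_mul_of_nonneg_left _ (mul_nonneg hκ0 h0)
      apply mul_le_mul_of_nonneg_right _ (dg_nonneg _ _)
      have := dg_nonneg (z.1 c.1) c.2
      linarith)
    (univ.filter (Eok (m := m))) Ecell1 Ecell2
    (by
      intro e he
      rw [mem_filter] at he
      have h := he.2
      rcases e with ⟨s, s', t⟩ | ⟨s, t, t'⟩
      · simp only [Eok] at h
        simp only [Ecell1, Ecell2]
        intro hh
        have : s = s' := (Prod.mk.inj hh).1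
        rw [this] at h
        omega
      · simp only [Eok] at h
        simp only [Ecell1, Ecell2]
        intro hh
        have : t = t' := (Prod.mk.inj hh).2
        rw [this] at h
        omega)
    (Ealpha κ r) Ebeta
    (by
      intro z _ e _ l
      rcases e with ⟨s, s', t⟩ | ⟨s, t, t'⟩
      · simp only [Ealpha]
        have := dg_nonneg (z.1 s) t
        split_ifs <;> positivity
      · simp only [Ealpha]
        have h1 := dg_nonneg (z.2 t) s
        have h2 := dg_nonneg (z.2 t') s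
        split_ifs <;> positivity)
    (by
      intro z _ e _ l
      rcases e with ⟨s, s', t⟩ | ⟨s, t, t'⟩
      · simp only [Ebeta]
        have := dg_nonneg (z.1 s') t
        split_ifs <;> positivity
      · simp only [Ebeta]
        split_ifs <;> norm_num)
    (fun z => κ * T3 (2 * r) z)
  have hcard : Fintype.card (Fin m × Fin m) = m * m := by simp
  rw [hcard] at hJ
  have hX : ∀ z : (Fin m → Fin m → Fin W) × (Fin m → Fin m → Fin W),
      ((∑ c : Fin m × Fin m, (-(κ * r * ((gap (z.1 c.1) c.2 : ℝ) * dg (z.2 c.2) c.1) +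
        κ * r * (((gap (z.1 c.1) c.2 : ℝ) + dg (z.1 c.1) c.2) * dg (z.2 c.2) c.1)) / 2 +
        Real.log (Real.cosh ((κ * r * (((gap (z.1 c.1) c.2 : ℝ) + dg (z.1 c.1) c.2) *
          dg (z.2 c.2) c.1) - κ * r * ((gap (z.1 c.1) c.2 : ℝ) * dg (z.2 c.2) c.1)) / 2)))) -
      (∑ e ∈ univ.filter (Eok (m := m)),
        (1 + (κ * r * (((gap (z.1 (Ecell1 e).1) (Ecell1 e).2 : ℝ) +
          dg (z.1 (Ecell1 e).1) (Ecell1 e).2) * dg (z.2 (Ecell1 e).2) (Ecell1 e).1) -
          κ * r * ((gap (z.1 (Ecell1 e).1) (Ecell1 e).2 : ℝ) *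
          dg (z.2 (Ecell1 e).2) (Ecell1 e).1)) / 2) *
        (1 + (κ * r * (((gap (z.1 (Ecell2 e).1) (Ecell2 e).2 : ℝ) +
          dg (z.1 (Ecell2 e).1) (Ecell2 e).2) * dg (z.2 (Ecell2 e).2) (Ecell2 e).1) -
          κ * r * ((gap (z.1 (Ecell2 e).1) (Ecell2 e).2 : ℝ) *
          dg (z.2 (Ecell2 e).2) (Ecell2 e).1)) / 2) *
        ((Ealpha κ r z e true + Ealpha κ r z e false) / 2) *
        ((Ebeta z e true + Ebeta z e false) / 2)) - κ * T3 (2 * r) z) = XX κ r z := by
    intro z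
    unfold XX
    rw [sum_Eok, Fintype.sum_prod_type]
    have e1 : ∀ s t : Fin m, (-(κ * r * ((gap (z.1 (s, t).1) (s, t).2 : ℝ) *
        dg (z.2 (s, t).2) (s, t).1) +
        κ * r * (((gap (z.1 (s, t).1) (s, t).2 : ℝ) + dg (z.1 (s, t).1) (s, t).2) *
          dg (z.2 (s, t).2) (s, t).1)) / 2 +
        Real.log (Real.cosh ((κ * r * (((gap (z.1 (s, t).1) (s, t).2 : ℝ) +
          dg (z.1 (s, t).1) (s, t).2) *
          dg (z.2 (s, t).2) (s, t).1) - κ * r * ((gap (z.1 (s, t).1) (s, t).2 : ℝ) *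
          dg (z.2 (s, t).2) (s, t).1)) / 2))) =
        (-(κ * r * (((gap (z.1 s) t : ℝ) + dg (z.1 s) t / 2) * dg (z.2 t) s)) +
        Real.log (Real.cosh (κ * r / 2 * (dg (z.1 s) t * dg (z.2 t) s)))) := by
      intro s t
      have a1 : (κ * r * (((gap (z.1 (s, t).1) (s, t).2 : ℝ) +
          dg (z.1 (s, t).1) (s, t).2) *
          dg (z.2 (s, t).2) (s, t).1) - κ * r * ((gap (z.1 (s, t).1) (s, t).2 : ℝ) *
          dg (z.2 (s, t).2) (s, t).1)) / 2 = κ * r / 2 * (dg (z.1 s) t * dg (z.2 t) s) := by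
        simp only
        ring
      rw [a1]
      simp only
      ring
    simp only [e1]
    have e2 : ∀ s s' t : Fin m, (if s.val + 1 = s'.val then
        (1 + (κ * r * (((gap (z.1 (Ecell1 (Sum.inl (s, s', t) : EE m)).1) (Ecell1 (Sum.inl (s, s', t) : EE m)).2 : ℝ) +
          dg (z.1 (Ecell1 (Sum.inl (s, s', t) : EE m)).1) (Ecell1 (Sum.inl (s, s', t) : EE m)).2) * dg (z.2 (Ecell1 (Sum.inl (s, s', t) : EE m)).2) (Ecell1 (Sum.inl (s, s', t) : EE m)).1) -
          κ * r * ((gap (z.1 (Ecell1 (Sum.inl (s, s', t) : EE m)).1) (Ecell1 (Sum.inl (s, s', t) : EE m)).2 : ℝ) *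
          dg (z.2 (Ecell1 (Sum.inl (s, s', t) : EE m)).2) (Ecell1 (Sum.inl (s, s', t) : EE m)).1)) / 2) *
        (1 + (κ * r * (((gap (z.1 (Ecell2 (Sum.inl (s, s', t) : EE m)).1) (Ecell2 (Sum.inl (s, s', t) : EE m)).2 : ℝ) +
          dg (z.1 (Ecell2 (Sum.inl (s, s', t) : EE m)).1) (Ecell2 (Sum.inl (s, s', t) : EE m)).2) * dg (z.2 (Ecell2 (Sum.inl (s, s', t) : EE m)).2) (Ecell2 (Sum.inl (s, s', t) : EE m)).1) -
          κ * r * ((gap (z.1 (Ecell2 (Sum.inl (s, s', t) : EE m)).1) (Ecell2 (Sum.inl (s, s', t) : EE m)).2 : ℝ) *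
          dg (z.2 (Ecell2 (Sum.inl (s, s', t) : EE m)).2) (Ecell2 (Sum.inl (s, s', t) : EE m)).1)) / 2) *
        ((Ealpha κ r z (Sum.inl (s, s', t)) true + Ealpha κ r z (Sum.inl (s, s', t)) false) / 2) *
        ((Ebeta z (Sum.inl (s, s', t)) true + Ebeta z (Sum.inl (s, s', t)) false) / 2) else 0) =
        (if s.val + 1 = s'.val then
        κ * r ^ 2 * (((gap (z.2 t) (s' + 1)).choose 2 : ℝ) *
        ((gap (z.1 s) t : ℝ) + dg (z.1 s) t / 2) * ((gap (z.1 s') (t + 1) : ℝ) + dg (z.1 s') t / 2) *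
        ((1 + κ * r / 2 * (dg (z.1 s) t * dg (z.2 t) s)) *
        (1 + κ * r / 2 * (dg (z.1 s') t * dg (z.2 t) s')))) else 0) := by
      intro s s' t
      split_ifs
      · simp only [Ecell1, Ecell2, Ealpha, Ebeta, if_true, if_false, Bool.false_eq_true]
        ring
      · rfl
    have e3 : ∀ s t t' : Fin m, (if t.val + 1 = t'.val then
        (1 + (κ * r * (((gap (z.1 (Ecell1 (Sum.inr (s, t, t') : EE m)).1) (Ecell1 (Sum.inr (s, t, t') : EE m)).2 : ℝ) +
          dg (z.1 (Ecell1 (Sum.inr (s, t, t') : EE m)).1) (Ecell1 (Sum.inr (s, t, t') : EE m)).2) * dg (z.2 (Ecell1 (Sum.inr (s, t, t') : EE m)).2) (Ecell1 (Sum.inr (s, t, t') : EE m)).1) -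
          κ * r * ((gap (z.1 (Ecell1 (Sum.inr (s, t, t') : EE m)).1) (Ecell1 (Sum.inr (s, t, t') : EE m)).2 : ℝ) *
          dg (z.2 (Ecell1 (Sum.inr (s, t, t') : EE m)).2) (Ecell1 (Sum.inr (s, t, t') : EE m)).1)) / 2) *
        (1 + (κ * r * (((gap (z.1 (Ecell2 (Sum.inr (s, t, t') : EE m)).1) (Ecell2 (Sum.inr (s, t, t') : EE m)).2 : ℝ) +
          dg (z.1 (Ecell2 (Sum.inr (s, t, t') : EE m)).1) (Ecell2 (Sum.inr (s, t, t') : EE m)).2) * dg (z.2 (Ecell2 (Sum.inr (s, t, t') : EE m)).2) (Ecell2 (Sum.inr (s, t, t') : EE m)).1) -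
          κ * r * ((gap (z.1 (Ecell2 (Sum.inr (s, t, t') : EE m)).1) (Ecell2 (Sum.inr (s, t, t') : EE m)).2 : ℝ) *
          dg (z.2 (Ecell2 (Sum.inr (s, t, t') : EE m)).2) (Ecell2 (Sum.inr (s, t, t') : EE m)).1)) / 2) *
        ((Ealpha κ r z (Sum.inr (s, t, t')) true + Ealpha κ r z (Sum.inr (s, t, t')) false) / 2) *
        ((Ebeta z (Sum.inr (s, t, t')) true + Ebeta z (Sum.inr (s, t, t')) false) / 2) else 0) =
        (if t.val + 1 = t'.val then
        κ * r ^ 2 * (((gap (z.1 s) (t' + 1)).choose 2 : ℝ) * dg (z.2 t) s * dg (z.2 t') s * (3 / 4) *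
        ((1 + κ * r / 2 * (dg (z.1 s) t * dg (z.2 t) s)) *
        (1 + κ * r / 2 * (dg (z.1 s) t' * dg (z.2 t') s)))) else 0) := by
      intro s t t'
      split_ifs
      · simp only [Ecell1, Ecell2, Ealpha, Ebeta, if_true, if_false, Bool.false_eq_true]
        ring
      · rfl
    simp only [e2, e3]
    ring
  simp only [hX] at hJ
  refine hJ.trans ?_
  rw [sum_QQ]
  apply Finset.sum_le_sum
  intro z hz
  refine le_of_eq_of_le (Finset.sum_congr
    (s₂ := (univ : Finset (Fin m × Fin m → Bool))) (by ext; simp) (fun _ _ => rfl)) ?_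
  apply Finset.sum_le_sum
  intro L _
  have hzU : ∀ s, StrictMono (z.1 s) := by
    intro s
    unfold ZZ at hz
    have h1 := (mem_product.1 hz).1
    have := (Fintype.mem_piFinset.1 h1) s
    unfold SM at this
    exact (mem_filter.1 this).2
  have hzV : ∀ t, StrictMono (z.2 t) := by
    intro t
    unfold ZZ at hz
    have h1 := (mem_product.1 hz).2
    have := (Fintype.mem_piFinset.1 h1) t
    unfold SM at this
    exact (mem_filter.1 this).2
  refine le_trans ?_ (prod_ge_exp r h0 h1 (mk z.1 z.2 (fun s t => L (s, t))))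
  apply Real.exp_le_exp.2
  have hb := sum_VV_le r h0 z.1 z.2 (fun s t => L (s, t)) hzU hzV
  have hb2 := mul_le_mul_of_nonneg_left hb hκ0
  have hzz : ((z.1, z.2) : (Fin m → Fin m → Fin W) × (Fin m → Fin m → Fin W)) = z := rfl
  rw [hzz] at hb2
  have f1 : (∑ c : Fin m × Fin m, if L c = true then
      κ * r * (((gap (z.1 c.1) c.2 : ℝ) + dg (z.1 c.1) c.2) * dg (z.2 c.2) c.1) else
      κ * r * ((gap (z.1 c.1) c.2 : ℝ) * dg (z.2 c.2) c.1)) =
      κ * (r * (∑ s : Fin m, ∑ t : Fin m,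
        ((gap (z.1 s) t : ℝ) + if L (s, t) = true then dg (z.1 s) t else 0) * dg (z.2 t) s)) := by
    rw [Fintype.sum_prod_type, Finset.mul_sum, Finset.mul_sum]
    apply Finset.sum_congr rfl
    intro s _
    rw [Finset.mul_sum, Finset.mul_sum]
    apply Finset.sum_congr rfl
    intro t _
    split_ifs <;> ring
  have f2 : (∑ e ∈ univ.filter (Eok (m := m)), Ealpha κ r z e (L (Ecell1 e)) *
      Ebeta z e (L (Ecell2 e))) = κ * (r ^ 2 * (∑ s : Fin m, ∑ s' : Fin m, ∑ t : Fin m,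
        if s.val + 1 = s'.val then ((gap (z.2 t) (s' + 1)).choose 2 : ℝ) *
          ((gap (z.1 s) t : ℝ) + if L (s, t) = true then dg (z.1 s) t else 0) *
          ((gap (z.1 s') (t + 1) : ℝ) + if L (s', t) = true then 0 else dg (z.1 s') t) else 0)) +
      κ * (r ^ 2 * (∑ s : Fin m, ∑ t : Fin m, ∑ t' : Fin m,
        if t.val + 1 = t'.val then ((gap (z.1 s) (t' + 1)).choose 2 : ℝ) *
          dg (z.2 t) s * dg (z.2 t') s *
          (if L (s, t) = true then (if L (s, t') = true then 1 else 2) else 0) else 0)) := by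
    rw [sum_Eok]
    congr 1
    · rw [Finset.mul_sum, Finset.mul_sum]
      apply Finset.sum_congr rfl
      intro s _
      rw [Finset.mul_sum, Finset.mul_sum]
      apply Finset.sum_congr rfl
      intro s' _
      rw [Finset.mul_sum, Finset.mul_sum]
      apply Finset.sum_congr rfl
      intro t _
      by_cases h : s.val + 1 = s'.val
      · rw [if_pos h, if_pos h]
        simp only [Ealpha, Ebeta, Ecell1, Ecell2]
        by_cases h1 : L (s, t) = true <;> by_cases h2 : L (s', t) = true <;>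
          simp only [h1, h2, if_true, if_false, eq_self_iff_true, Bool.false_eq_true] <;> ring
      · rw [if_neg h, if_neg h]
        ring
    · rw [Finset.mul_sum, Finset.mul_sum]
      apply Finset.sum_congr rfl
      intro s _
      rw [Finset.mul_sum, Finset.mul_sum]
      apply Finset.sum_congr rfl
      intro s' _
      rw [Finset.mul_sum, Finset.mul_sum]
      apply Finset.sum_congr rfl
      intro t _
      by_cases h : s'.val + 1 = t.val
      · rw [if_pos h, if_pos h]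
        simp only [Ealpha, Ebeta, Ecell1, Ecell2]
        by_cases h1 : L (s, s') = true <;> by_cases h2 : L (s, t) = true <;>
          simp only [h1, h2, if_true, if_false, eq_self_iff_true, Bool.false_eq_true] <;> ring
      · rw [if_neg h, if_neg h]
        ring
  rw [f1, f2]
  linarith

end

end Pool.Agent.Helper124.SW
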