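import Pool.Agent.Helper124.SWAvg2

/-!
Lower bound for the average of the exponent.
-/

namespace Pool.Agent.Helper124.SW

open Finset Classical

noncomputable section

theorem log_cosh_ge {u : ℝ} (hu : 0 ≤ u) : u ^ 2 / 2 - u ^ 4 / 8 ≤ Real.log (Real.cosh u) := by
  have h1 : 1 + u ^ 2 / 2 ≤ Real.cosh u := by
    have h2 : Real.cosh u = 1 + 2 * Real.sinh (u / 2) ^ 2 := by
      have h3 : Real.cosh (2 * (u / 2)) = Real.cosh (u / 2) ^ 2 + Real.sinh (u / 2) ^ 2 :=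
        Real.cosh_two_mul _
      have h4 := Real.cosh_sq (u / 2)
      have h5 : 2 * (u / 2) = u := by ring
      rw [h5] at h3
      rw [h3, h4]
      ring
    have h6 : u / 2 ≤ Real.sinh (u / 2) := Real.self_le_sinh_iff.2 (by linarith)
    have h7 : (u / 2) ^ 2 ≤ Real.sinh (u / 2) ^ 2 := pow_le_pow_left₀ (by linarith) h6 2
    rw [h2]
    nlinarith
  have hv : 0 ≤ u ^ 2 / 2 := by positivity
  have h8 := Real.le_log_one_add_of_nonneg hv
  have h9 : Real.log (1 + u ^ 2 / 2) ≤ Real.log (Real.cosh u) :=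
    Real.log_le_log (by positivity) h1
  have h10 : u ^ 2 / 2 - u ^ 4 / 8 ≤ 2 * (u ^ 2 / 2) / (u ^ 2 / 2 + 2) := by
    rw [le_div_iff₀ (by positivity)]
    have h11 : 0 ≤ u ^ 6 := by positivity
    nlinarith
  linarith

theorem card_ZZ_pos {m W : ℕ} (hW : m ≤ W) : (ZZ m W).Nonempty := by
  have hSM : (SM m W).Nonempty := by
    refine ⟨Fin.castLE hW, ?_⟩
    unfold SM
    rw [mem_filter]
    exact ⟨mem_univ _, Fin.strictMono_castLE hW⟩
  unfold ZZ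
  apply Finset.Nonempty.product
  · exact Fintype.piFinset_nonempty.2 fun _ => hSM
  · exact Fintype.piFinset_nonempty.2 fun _ => hSM

theorem sum_if_succ_le {m : ℕ} (B : ℝ) (hB : 0 ≤ B) (F : Fin m → Fin m → Fin m → ℝ)
    (hF : ∀ a b c : Fin m, a.val + 1 = b.val → F a b c ≤ B) :
    (∑ a : Fin m, ∑ b : Fin m, ∑ c : Fin m, if a.val + 1 = b.val then F a b c else 0) ≤
      (m : ℝ) * m * B := by
  have h1 : ∀ a : Fin m, (∑ b : Fin m, ∑ c : Fin m, if a.val + 1 = b.val then F a b c else 0) ≤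
      m * B := by
    intro a
    by_cases ha : a.val + 1 < m
    · rw [Finset.sum_eq_single (⟨a.val + 1, ha⟩ : Fin m)]
      · calc (∑ c : Fin m, if a.val + 1 = (⟨a.val + 1, ha⟩ : Fin m).val
              then F a ⟨a.val + 1, ha⟩ c else 0) ≤ ∑ c : Fin m, B := by
              apply Finset.sum_le_sum
              intro c _
              rw [if_pos rfl]
              exact hF _ _ _ rfl
          _ = m * B := by simp
      · intro b _ hb
        apply Finset.sum_eq_zero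
        intro c _
        rw [if_neg]
        intro h
        exact hb (Fin.ext h.symm)
      · intro h
        exact absurd (mem_univ _) h
    · rw [Finset.sum_eq_zero]
      · positivity
      · intro b _
        apply Finset.sum_eq_zero
        intro c _
        rw [if_neg]
        intro h
        have := b.isLt
        omega
  calc _ ≤ ∑ a : Fin m, (m : ℝ) * B := Finset.sum_le_sum fun a _ => h1 a
    _ = (m : ℝ) * m * B := by simp; ring

theorem avg_XX (C1 C2 : ℝ) (hC1 : 0 ≤ C1) (hC2 : 0 ≤ C2) (m W : ℕ) (hm : 1 ≤ m)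
    (hW : m + 2 ≤ W) (κ r : ℝ) (hκ : 0 ≤ κ) (hr : 0 ≤ r)
    (hx : 512 * (2 * r * ((W : ℝ) / m) ^ 2) ≤ 1 / 2)
    (h1 : ∀ (m W : ℕ) (τ : ℝ), 1 ≤ m → m ≤ W → 0 ≤ τ →
      (∀ a i : ℕ, i ≤ m → ∑ f ∈ SM m W, (gap f i).choose a = W.choose (m + a)) →
      (∀ A i : ℕ, i ≤ m → ∑ f ∈ SM m W, (gap f i : ℝ) ^ A ≤
        (A.factorial : ℝ) * (W.choose m : ℝ) * ((W : ℝ) / m) ^ A) →
      ∀ s s' t : Fin m, s.val + 1 = s'.val →
      ∑ z ∈ ZZ m W, ((gap (z.2 t) (s' + 1)).choose 2 : ℝ) *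
        ((gap (z.1 s) t : ℝ) + dg (z.1 s) t / 2) *
        ((gap (z.1 s') (t + 1) : ℝ) + dg (z.1 s') t / 2) *
        ((1 + τ * (dg (z.1 s) t * dg (z.2 t) s)) * (1 + τ * (dg (z.1 s') t * dg (z.2 t) s'))) ≤
      (ZZ m W).card * (((W : ℝ) / m) ^ 4 *
        (4 + C1 * (τ * ((W : ℝ) / m) ^ 2 + (τ * ((W : ℝ) / m) ^ 2) ^ 2))))
    (h2 : ∀ (m W : ℕ) (τ : ℝ), 1 ≤ m → m ≤ W → 0 ≤ τ →
      (∀ a i : ℕ, i ≤ m → ∑ f ∈ SM m W, (gap f i).choose a = W.choose (m + a)) →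
      (∀ A i : ℕ, i ≤ m → ∑ f ∈ SM m W, (gap f i : ℝ) ^ A ≤
        (A.factorial : ℝ) * (W.choose m : ℝ) * ((W : ℝ) / m) ^ A) →
      ∀ s t t' : Fin m, t.val + 1 = t'.val →
      ∑ z ∈ ZZ m W, ((gap (z.1 s) (t' + 1)).choose 2 : ℝ) * dg (z.2 t) s * dg (z.2 t') s * (3 / 4) *
        ((1 + τ * (dg (z.1 s) t * dg (z.2 t) s)) * (1 + τ * (dg (z.1 s) t' * dg (z.2 t') s))) ≤
      (ZZ m W).card * (((W : ℝ) / m) ^ 4 *
        (3 + C2 * (τ * ((W : ℝ) / m) ^ 2 + (τ * ((W : ℝ) / m) ^ 2) ^ 2)))) :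
    (ZZ m W).card * ((m : ℝ) * m * (-(κ * r * (4 * ((W : ℝ) / m) ^ 2)) +
      (κ * r / 2) ^ 2 / 2 * (6 * (((W : ℝ) - m) * ((W : ℝ) - m - 1)) /
        (((m : ℝ) + 1) * (m + 2))) ^ 2 -
      (κ * r / 2) ^ 4 / 8 * (147456 * ((W : ℝ) / m) ^ 8) -
      κ * r ^ 2 * (((W : ℝ) / m) ^ 4 *
        (4 + C1 * (κ * r / 2 * ((W : ℝ) / m) ^ 2 + (κ * r / 2 * ((W : ℝ) / m) ^ 2) ^ 2))) -
      κ * r ^ 2 * (((W : ℝ) / m) ^ 4 *
        (3 + C2 * (κ * r / 2 * ((W : ℝ) / m) ^ 2 + (κ * r / 2 * ((W : ℝ) / m) ^ 2) ^ 2))) -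
      κ * (2 * (512 * (2 * r * ((W : ℝ) / m) ^ 2)) ^ 3))) ≤
    ∑ z ∈ ZZ m W, XX κ r z := by
  have hmW : m ≤ W := by omega
  have hG1 : ∀ a i : ℕ, i ≤ m → ∑ f ∈ SM m W, (gap f i).choose a = W.choose (m + a) :=
    fun a i hi => sum_choose_gap m W a i hi
  have hG2 : ∀ i j : ℕ, i < j → j ≤ m → ∑ f ∈ SM m W, gap f i * gap f j = W.choose (m + 2) :=
    fun i j hij hj => sum_gap_mul m W i j hij hj
  have hG3 : ∀ A i : ℕ, i ≤ m → ∑ f ∈ SM m W, (gap f i : ℝ) ^ A ≤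
      (A.factorial : ℝ) * (W.choose m : ℝ) * ((W : ℝ) / m) ^ A :=
    fun A i hi => gap_moment m W A i hm hmW hi
  have hτ : 0 ≤ κ * r / 2 := by positivity
  have M1 := moment_one m W hm hmW hG1
  have M2 := moment_two m W hm hW hG1 hG2
  have M4 := moment_four m W hm hmW hG3
  have R := h1 m W (κ * r / 2) hm hmW hτ hG1 hG3
  have Cc := h2 m W (κ * r / 2) hm hmW hτ hG1 hG3
  have T := T3_avg m W hm hmW (2 * r) (by positivity) hx (fun j c₀ => conn_count m j c₀)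
    (fun R => strip_count m W R)
  have hn : (0 : ℝ) ≤ ((ZZ m W).card : ℝ) := Nat.cast_nonneg _
  unfold XX
  rw [Finset.sum_sub_distrib, Finset.sum_sub_distrib, Finset.sum_sub_distrib]
  -- main part
  have p1 : (m : ℝ) * m * ((ZZ m W).card * (-(κ * r * (4 * ((W : ℝ) / m) ^ 2)) +
      (κ * r / 2) ^ 2 / 2 * (6 * (((W : ℝ) - m) * ((W : ℝ) - m - 1)) /
        (((m : ℝ) + 1) * (m + 2))) ^ 2 -
      (κ * r / 2) ^ 4 / 8 * (147456 * ((W : ℝ) / m) ^ 8))) ≤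
      ∑ z ∈ ZZ m W, ∑ s : Fin m, ∑ t : Fin m,
        (-(κ * r * (((gap (z.1 s) t : ℝ) + dg (z.1 s) t / 2) * dg (z.2 t) s)) +
        Real.log (Real.cosh (κ * r / 2 * (dg (z.1 s) t * dg (z.2 t) s)))) := by
    rw [Finset.sum_comm]
    have hst : ∀ s : Fin m, (m : ℝ) * ((ZZ m W).card * (-(κ * r * (4 * ((W : ℝ) / m) ^ 2)) +
      (κ * r / 2) ^ 2 / 2 * (6 * (((W : ℝ) - m) * ((W : ℝ) - m - 1)) /
        (((m : ℝ) + 1) * (m + 2))) ^ 2 -
      (κ * r / 2) ^ 4 / 8 * (147456 * ((W : ℝ) / m) ^ 8))) ≤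
        ∑ z ∈ ZZ m W, ∑ t : Fin m,
        (-(κ * r * (((gap (z.1 s) t : ℝ) + dg (z.1 s) t / 2) * dg (z.2 t) s)) +
        Real.log (Real.cosh (κ * r / 2 * (dg (z.1 s) t * dg (z.2 t) s)))) := by
      intro s
      rw [Finset.sum_comm]
      have hstt : ∀ t : Fin m, ((ZZ m W).card * (-(κ * r * (4 * ((W : ℝ) / m) ^ 2)) +
        (κ * r / 2) ^ 2 / 2 * (6 * (((W : ℝ) - m) * ((W : ℝ) - m - 1)) /
          (((m : ℝ) + 1) * (m + 2))) ^ 2 -
        (κ * r / 2) ^ 4 / 8 * (147456 * ((W : ℝ) / m) ^ 8))) ≤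
        ∑ z ∈ ZZ m W,
        (-(κ * r * (((gap (z.1 s) t : ℝ) + dg (z.1 s) t / 2) * dg (z.2 t) s)) +
        Real.log (Real.cosh (κ * r / 2 * (dg (z.1 s) t * dg (z.2 t) s)))) := by
        intro t
        have a1 := M1 s t
        have a2 := M2 s t
        have a4 := M4 s t
        have a5 : ∑ z ∈ ZZ m W, (-(κ * r) * (((gap (z.1 s) t : ℝ) + dg (z.1 s) t / 2) * dg (z.2 t) s) +
          ((κ * r / 2) ^ 2 / 2 * (dg (z.1 s) t * dg (z.2 t) s) ^ 2 -
          (κ * r / 2) ^ 4 / 8 * (dg (z.1 s) t * dg (z.2 t) s) ^ 4)) ≤ ∑ z ∈ ZZ m W,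
          (-(κ * r * (((gap (z.1 s) t : ℝ) + dg (z.1 s) t / 2) * dg (z.2 t) s)) +
          Real.log (Real.cosh (κ * r / 2 * (dg (z.1 s) t * dg (z.2 t) s)))) := by
          apply Finset.sum_le_sum
          intro z _
          have b1 : 0 ≤ κ * r / 2 * (dg (z.1 s) t * dg (z.2 t) s) :=
            mul_nonneg hτ (mul_nonneg (dg_nonneg _ _) (dg_nonneg _ _))
          have b2 := log_cosh_ge b1
          have b3 : (κ * r / 2 * (dg (z.1 s) t * dg (z.2 t) s)) ^ 2 / 2 -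
            (κ * r / 2 * (dg (z.1 s) t * dg (z.2 t) s)) ^ 4 / 8 =
            (κ * r / 2) ^ 2 / 2 * (dg (z.1 s) t * dg (z.2 t) s) ^ 2 -
            (κ * r / 2) ^ 4 / 8 * (dg (z.1 s) t * dg (z.2 t) s) ^ 4 := by ring
          rw [b3] at b2
          linarith
        rw [Finset.sum_add_distrib, Finset.sum_sub_distrib, ← Finset.mul_sum, ← Finset.mul_sum,
          ← Finset.mul_sum] at a5
        refine le_trans ?_ a5
        have c1 : -(κ * r) * ((ZZ m W).card * (4 * ((W : ℝ) / m) ^ 2)) ≤ -(κ * r) *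
          ∑ z ∈ ZZ m W, ((gap (z.1 s) t : ℝ) + dg (z.1 s) t / 2) * dg (z.2 t) s := by
          have := mul_le_mul_of_nonneg_left a1 (mul_nonneg hκ hr)
          linarith
        have c2 := mul_le_mul_of_nonneg_left a2 (show 0 ≤ (κ * r / 2) ^ 2 / 2 by positivity)
        have c4 := mul_le_mul_of_nonneg_left a4 (show 0 ≤ (κ * r / 2) ^ 4 / 8 by positivity)
        linarith
      calc _ = ∑ t : Fin m, ((ZZ m W).card * (-(κ * r * (4 * ((W : ℝ) / m) ^ 2)) +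
        (κ * r / 2) ^ 2 / 2 * (6 * (((W : ℝ) - m) * ((W : ℝ) - m - 1)) /
          (((m : ℝ) + 1) * (m + 2))) ^ 2 -
        (κ * r / 2) ^ 4 / 8 * (147456 * ((W : ℝ) / m) ^ 8))) := by
            rw [Finset.sum_const, card_univ, Fintype.card_fin, nsmul_eq_mul]
        _ ≤ _ := Finset.sum_le_sum fun t _ => hstt t
    calc _ = ∑ s : Fin m, (m : ℝ) * ((ZZ m W).card * (-(κ * r * (4 * ((W : ℝ) / m) ^ 2)) +
        (κ * r / 2) ^ 2 / 2 * (6 * (((W : ℝ) - m) * ((W : ℝ) - m - 1)) /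
          (((m : ℝ) + 1) * (m + 2))) ^ 2 -
        (κ * r / 2) ^ 4 / 8 * (147456 * ((W : ℝ) / m) ^ 8))) := by
            rw [Finset.sum_const, card_univ, Fintype.card_fin, nsmul_eq_mul, mul_assoc]
      _ ≤ _ := Finset.sum_le_sum fun s _ => hst s
  have p2 : (∑ z ∈ ZZ m W, ∑ s : Fin m, ∑ s' : Fin m, ∑ t : Fin m, if s.val + 1 = s'.val then
      κ * r ^ 2 * (((gap (z.2 t) (s' + 1)).choose 2 : ℝ) *
      ((gap (z.1 s) t : ℝ) + dg (z.1 s) t / 2) * ((gap (z.1 s') (t + 1) : ℝ) + dg (z.1 s') t / 2) *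
      ((1 + κ * r / 2 * (dg (z.1 s) t * dg (z.2 t) s)) *
        (1 + κ * r / 2 * (dg (z.1 s') t * dg (z.2 t) s')))) else 0) ≤
      (m : ℝ) * m * (κ * r ^ 2 * ((ZZ m W).card * (((W : ℝ) / m) ^ 4 *
        (4 + C1 * (κ * r / 2 * ((W : ℝ) / m) ^ 2 + (κ * r / 2 * ((W : ℝ) / m) ^ 2) ^ 2))))) := by
    have e : (∑ z ∈ ZZ m W, ∑ s : Fin m, ∑ s' : Fin m, ∑ t : Fin m, if s.val + 1 = s'.val then
      κ * r ^ 2 * (((gap (z.2 t) (s' + 1)).choose 2 : ℝ) *
      ((gap (z.1 s) t : ℝ) + dg (z.1 s) t / 2) * ((gap (z.1 s') (t + 1) : ℝ) + dg (z.1 s') t / 2) *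
      ((1 + κ * r / 2 * (dg (z.1 s) t * dg (z.2 t) s)) *
        (1 + κ * r / 2 * (dg (z.1 s') t * dg (z.2 t) s')))) else 0) =
      ∑ s : Fin m, ∑ s' : Fin m, ∑ t : Fin m, if s.val + 1 = s'.val then
      ∑ z ∈ ZZ m W, κ * r ^ 2 * (((gap (z.2 t) (s' + 1)).choose 2 : ℝ) *
      ((gap (z.1 s) t : ℝ) + dg (z.1 s) t / 2) * ((gap (z.1 s') (t + 1) : ℝ) + dg (z.1 s') t / 2) *
      ((1 + κ * r / 2 * (dg (z.1 s) t * dg (z.2 t) s)) *
        (1 + κ * r / 2 * (dg (z.1 s') t * dg (z.2 t) s')))) else 0 := by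
      rw [Finset.sum_comm]
      apply Finset.sum_congr rfl
      intro s _
      rw [Finset.sum_comm]
      apply Finset.sum_congr rfl
      intro s' _
      rw [Finset.sum_comm]
      apply Finset.sum_congr rfl
      intro t _
      by_cases h : s.val + 1 = s'.val
      · rw [if_pos h]
        apply Finset.sum_congr rfl
        intro z _
        rw [if_pos h]
      · rw [if_neg h]
        apply Finset.sum_eq_zero
        intro z _
        rw [if_neg h]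
    rw [e]
    apply sum_if_succ_le
    · positivity
    · intro s s' t hs
      rw [← Finset.mul_sum]
      exact mul_le_mul_of_nonneg_left (R s s' t hs) (by positivity)
  have p3 : (∑ z ∈ ZZ m W, ∑ s : Fin m, ∑ t : Fin m, ∑ t' : Fin m, if t.val + 1 = t'.val then
      κ * r ^ 2 * (((gap (z.1 s) (t' + 1)).choose 2 : ℝ) * dg (z.2 t) s * dg (z.2 t') s * (3 / 4) *
      ((1 + κ * r / 2 * (dg (z.1 s) t * dg (z.2 t) s)) *
        (1 + κ * r / 2 * (dg (z.1 s) t' * dg (z.2 t') s)))) else 0) ≤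
      (m : ℝ) * m * (κ * r ^ 2 * ((ZZ m W).card * (((W : ℝ) / m) ^ 4 *
        (3 + C2 * (κ * r / 2 * ((W : ℝ) / m) ^ 2 + (κ * r / 2 * ((W : ℝ) / m) ^ 2) ^ 2))))) := by
    have e : (∑ z ∈ ZZ m W, ∑ s : Fin m, ∑ t : Fin m, ∑ t' : Fin m, if t.val + 1 = t'.val then
      κ * r ^ 2 * (((gap (z.1 s) (t' + 1)).choose 2 : ℝ) * dg (z.2 t) s * dg (z.2 t') s * (3 / 4) *
      ((1 + κ * r / 2 * (dg (z.1 s) t * dg (z.2 t) s)) *
        (1 + κ * r / 2 * (dg (z.1 s) t' * dg (z.2 t') s)))) else 0) =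
      ∑ t : Fin m, ∑ t' : Fin m, ∑ s : Fin m, if t.val + 1 = t'.val then
      ∑ z ∈ ZZ m W, κ * r ^ 2 * (((gap (z.1 s) (t' + 1)).choose 2 : ℝ) * dg (z.2 t) s *
        dg (z.2 t') s * (3 / 4) *
      ((1 + κ * r / 2 * (dg (z.1 s) t * dg (z.2 t) s)) *
        (1 + κ * r / 2 * (dg (z.1 s) t' * dg (z.2 t') s)))) else 0 := by
      have e0 : ∀ z : (Fin m → Fin m → Fin W) × (Fin m → Fin m → Fin W),
        (∑ s : Fin m, ∑ t : Fin m, ∑ t' : Fin m, if t.val + 1 = t'.val then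
        κ * r ^ 2 * (((gap (z.1 s) (t' + 1)).choose 2 : ℝ) * dg (z.2 t) s * dg (z.2 t') s * (3 / 4) *
        ((1 + κ * r / 2 * (dg (z.1 s) t * dg (z.2 t) s)) *
          (1 + κ * r / 2 * (dg (z.1 s) t' * dg (z.2 t') s)))) else 0) =
        (∑ t : Fin m, ∑ t' : Fin m, ∑ s : Fin m, if t.val + 1 = t'.val then
        κ * r ^ 2 * (((gap (z.1 s) (t' + 1)).choose 2 : ℝ) * dg (z.2 t) s * dg (z.2 t') s * (3 / 4) *
        ((1 + κ * r / 2 * (dg (z.1 s) t * dg (z.2 t) s)) *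
          (1 + κ * r / 2 * (dg (z.1 s) t' * dg (z.2 t') s)))) else 0) := by
        intro z
        rw [Finset.sum_comm]
        apply Finset.sum_congr rfl
        intro t _
        rw [Finset.sum_comm]
      rw [Finset.sum_congr rfl fun z _ => e0 z, Finset.sum_comm]
      apply Finset.sum_congr rfl
      intro t _
      rw [Finset.sum_comm]
      apply Finset.sum_congr rfl
      intro t' _
      rw [Finset.sum_comm]
      apply Finset.sum_congr rfl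
      intro s _
      by_cases h : t.val + 1 = t'.val
      · rw [if_pos h]
        apply Finset.sum_congr rfl
        intro z _
        rw [if_pos h]
      · rw [if_neg h]
        apply Finset.sum_eq_zero
        intro z _
        rw [if_neg h]
    rw [e]
    apply sum_if_succ_le
    · positivity
    · intro t t' s ht
      rw [← Finset.mul_sum]
      exact mul_le_mul_of_nonneg_left (Cc s t t' ht) (by positivity)
  have p4 : ∑ z ∈ ZZ m W, κ * T3 (2 * r) z ≤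
      κ * ((ZZ m W).card * ((m * m : ℝ) * (2 * (512 * (2 * r * ((W : ℝ) / m) ^ 2)) ^ 3))) := by
    rw [← Finset.mul_sum]
    exact mul_le_mul_of_nonneg_left T hκ
  refine le_trans (le_of_eq ?_) (sub_le_sub (sub_le_sub (sub_le_sub p1 p2) p3) p4)
  ring

end

end Pool.Agent.Helper124.SW
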