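import Pool.Agent.Helper124.SWAvg3

/-!
Lower bound for the average of the products: conclusion.
-/

namespace Pool.Agent.Helper124.SW

open Finset Classical

noncomputable section

theorem card_SM (m W : ℕ) : (SM m W).card = W.choose m := by
  have h := sum_choose_gap m W 0 0 (Nat.zero_le m)
  simp only [Nat.choose_zero_right, Nat.add_zero] at h
  rw [← h]
  simp

theorem card_ZZ (m W : ℕ) : (ZZ m W).card = (W.choose m) ^ (2 * m) := by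
  unfold ZZ
  rw [Finset.card_product, Fintype.card_piFinset]
  rw [Finset.prod_congr rfl fun _ _ => card_SM m W]
  rw [Finset.prod_const, card_univ, Fintype.card_fin, ← pow_add]
  congr 1
  ring

theorem expo_bound (C1 C2 x κ w P r : ℝ) (hC1 : 0 ≤ C1) (hC2 : 0 ≤ C2) (hx0 : 0 < x)
    (hx1 : x ≤ 1 / 2) (hκ1 : 1 ≤ κ) (hκ2 : κ ≤ 1 + x / 100) (hr : r * w ^ 2 = x / 2)
    (hP : 35.28 * w ^ 4 ≤ P ^ 2) (hK : (536872065 + 3 / 8 * (C1 + C2)) * x ≤ 0.0325) :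
    -(2 * x + 0.7 * x ^ 2) ≤ -(κ * r * (4 * w ^ 2)) + (κ * r / 2) ^ 2 / 2 * P ^ 2 -
      (κ * r / 2) ^ 4 / 8 * (147456 * w ^ 8) -
      κ * r ^ 2 * (w ^ 4 * (4 + C1 * (κ * r / 2 * w ^ 2 + (κ * r / 2 * w ^ 2) ^ 2))) -
      κ * r ^ 2 * (w ^ 4 * (3 + C2 * (κ * r / 2 * w ^ 2 + (κ * r / 2 * w ^ 2) ^ 2))) -
      κ * (2 * (512 * (2 * r * w ^ 2)) ^ 3) := by
  have hκ3 : κ ≤ 2 := by linarith
  have hκ0 : 0 ≤ κ := by linarith
  have e1 : κ * r * (4 * w ^ 2) = 2 * x * κ := by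
    calc κ * r * (4 * w ^ 2) = 4 * κ * (r * w ^ 2) := by ring
      _ = _ := by rw [hr]; ring
  have t1 : κ * r * (4 * w ^ 2) ≤ 2 * x + 0.02 * x ^ 2 := by
    rw [e1]
    nlinarith
  have hx2 : 0 ≤ x ^ 2 := sq_nonneg x
  have hx3 : 0 ≤ x ^ 3 := by positivity
  have t2 : 1.1025 * x ^ 2 ≤ (κ * r / 2) ^ 2 / 2 * P ^ 2 := by
    have a1 : (κ * r / 2) ^ 2 / 2 * (35.28 * w ^ 4) ≤ (κ * r / 2) ^ 2 / 2 * P ^ 2 :=
      mul_le_mul_of_nonneg_left hP (by positivity)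
    have a2 : (κ * r / 2) ^ 2 / 2 * (35.28 * w ^ 4) = 1.1025 * x ^ 2 * κ ^ 2 := by
      calc (κ * r / 2) ^ 2 / 2 * (35.28 * w ^ 4) = κ ^ 2 * 4.41 * (r * w ^ 2) ^ 2 := by ring
        _ = _ := by rw [hr]; ring
    have a3 : 1 ≤ κ ^ 2 := one_le_pow₀ hκ1
    have a4 : 1.1025 * x ^ 2 ≤ 1.1025 * x ^ 2 * κ ^ 2 := by nlinarith
    linarith
  have t3 : (κ * r / 2) ^ 4 / 8 * (147456 * w ^ 8) ≤ 1152 * x ^ 3 := by
    have a1 : (κ * r / 2) ^ 4 / 8 * (147456 * w ^ 8) = 72 * κ ^ 4 * x ^ 4 := by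
      calc (κ * r / 2) ^ 4 / 8 * (147456 * w ^ 8) = κ ^ 4 * 1152 * (r * w ^ 2) ^ 4 := by ring
        _ = _ := by rw [hr]; ring
    rw [a1]
    have a2 : κ ^ 4 ≤ 2 ^ 4 := pow_le_pow_left₀ hκ0 hκ3 4
    have a3 : x ^ 4 ≤ x ^ 3 := by
      have : x ^ 4 = x ^ 3 * x := by ring
      rw [this]
      nlinarith
    have a4 : 0 ≤ x ^ 4 := by positivity
    calc 72 * κ ^ 4 * x ^ 4 ≤ 72 * 2 ^ 4 * x ^ 4 := by gcongr
      _ ≤ 72 * 2 ^ 4 * x ^ 3 := by gcongr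
      _ = _ := by ring
  have hu : κ * r / 2 * w ^ 2 = κ * x / 4 := by
    calc κ * r / 2 * w ^ 2 = κ / 2 * (r * w ^ 2) := by ring
      _ = _ := by rw [hr]; ring
  have hu2 : κ * x / 4 + (κ * x / 4) ^ 2 ≤ 3 / 4 * x := by
    have b1 : κ * x / 4 ≤ x / 2 := by nlinarith
    have b2 : (κ * x / 4) ^ 2 ≤ (x / 2) ^ 2 := pow_le_pow_left₀ (by positivity) b1 2
    have b3 : (x / 2) ^ 2 ≤ x / 4 := by nlinarith
    linarith
  have hu0 : 0 ≤ κ * x / 4 + (κ * x / 4) ^ 2 := by positivity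
  have gen : ∀ A C : ℝ, 0 ≤ A → 0 ≤ C → κ * r ^ 2 * (w ^ 4 *
      (A + C * (κ * r / 2 * w ^ 2 + (κ * r / 2 * w ^ 2) ^ 2))) ≤
      A / 4 * (x ^ 2 + x ^ 3 / 100) + 3 / 8 * C * x ^ 3 := by
    intro A C hA hC
    rw [hu]
    have a1 : κ * r ^ 2 * (w ^ 4 * (A + C * (κ * x / 4 + (κ * x / 4) ^ 2))) =
      κ * x ^ 2 / 4 * A + κ * x ^ 2 / 4 * C * (κ * x / 4 + (κ * x / 4) ^ 2) := by
      calc κ * r ^ 2 * (w ^ 4 * (A + C * (κ * x / 4 + (κ * x / 4) ^ 2))) =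
          κ * (r * w ^ 2) ^ 2 * (A + C * (κ * x / 4 + (κ * x / 4) ^ 2)) := by ring
        _ = _ := by rw [hr]; ring
    rw [a1]
    have a2 : κ * x ^ 2 / 4 * A ≤ A / 4 * (x ^ 2 + x ^ 3 / 100) := by
      calc κ * x ^ 2 / 4 * A = κ * (x ^ 2 * A / 4) := by ring
        _ ≤ (1 + x / 100) * (x ^ 2 * A / 4) := mul_le_mul_of_nonneg_right hκ2 (by positivity)
        _ = _ := by ring
    have a3 : κ * x ^ 2 / 4 * C * (κ * x / 4 + (κ * x / 4) ^ 2) ≤ 3 / 8 * C * x ^ 3 := by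
      calc κ * x ^ 2 / 4 * C * (κ * x / 4 + (κ * x / 4) ^ 2) ≤
          κ * x ^ 2 / 4 * C * (3 / 4 * x) := mul_le_mul_of_nonneg_left hu2 (by positivity)
        _ = κ * (3 / 16 * C * x ^ 3) := by ring
        _ ≤ 2 * (3 / 16 * C * x ^ 3) := mul_le_mul_of_nonneg_right hκ3 (by positivity)
        _ = _ := by ring
    linarith
  have t4 := gen 4 C1 (by norm_num) hC1
  have t5 := gen 3 C2 (by norm_num) hC2
  have t6 : κ * (2 * (512 * (2 * r * w ^ 2)) ^ 3) ≤ 536870912 * x ^ 3 := by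
    have a1 : 2 * r * w ^ 2 = x := by linarith
    rw [a1]
    calc κ * (2 * (512 * x) ^ 3) = κ * (268435456 * x ^ 3) := by ring
      _ ≤ 2 * (268435456 * x ^ 3) := mul_le_mul_of_nonneg_right hκ3 (by positivity)
      _ = _ := by ring
  have hK2 := mul_le_mul_of_nonneg_right hK hx2
  have hK3 : (536872065 + 3 / 8 * (C1 + C2)) * x * x ^ 2 =
    536872065 * x ^ 3 + 3 / 8 * C1 * x ^ 3 + 3 / 8 * C2 * x ^ 3 := by ring
  rw [hK3] at hK2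
  linarith

theorem rho_bound (m W : ℕ) (hm : 1000 ≤ m) (hW : 1000 * m ≤ W) :
    35.28 * ((W : ℝ) / m) ^ 4 ≤
      (6 * (((W : ℝ) - m) * ((W : ℝ) - m - 1)) / (((m : ℝ) + 1) * (m + 2))) ^ 2 := by
  have hm' : (1000 : ℝ) ≤ m := by exact_mod_cast hm
  have hW' : (1000 : ℝ) * m ≤ W := by exact_mod_cast hW
  have hm0 : (0 : ℝ) < m := by linarith
  have hW0 : (0 : ℝ) < W := by nlinarith
  have a1 : 0.999 * (W : ℝ) ≤ (W : ℝ) - m := by linarith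
  have a2 : 0.998 * (W : ℝ) ≤ (W : ℝ) - m - 1 := by linarith
  have a3 : 0.999 * (W : ℝ) * (0.998 * (W : ℝ)) ≤ ((W : ℝ) - m) * ((W : ℝ) - m - 1) :=
    mul_le_mul a1 a2 (by positivity) (by linarith)
  have a4 : ((m : ℝ) + 1) * (m + 2) ≤ (1.001 * m) * (1.002 * m) :=
    mul_le_mul (by linarith) (by linarith) (by positivity) (by positivity)
  have a5 : 5.94 * ((W : ℝ) / m) ^ 2 ≤
      6 * (((W : ℝ) - m) * ((W : ℝ) - m - 1)) / (((m : ℝ) + 1) * (m + 2)) := by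
    rw [le_div_iff₀ (by positivity), div_pow]
    have hW2 : (0 : ℝ) ≤ (W : ℝ) ^ 2 := sq_nonneg _
    calc 5.94 * ((W : ℝ) ^ 2 / (m : ℝ) ^ 2) * (((m : ℝ) + 1) * (m + 2)) ≤
        5.94 * ((W : ℝ) ^ 2 / (m : ℝ) ^ 2) * ((1.001 * m) * (1.002 * m)) :=
          mul_le_mul_of_nonneg_left a4 (by positivity)
      _ = 5.95783188 * (W : ℝ) ^ 2 := by
          field_simp
          norm_num
      _ ≤ 6 * (0.999 * (W : ℝ) * (0.998 * (W : ℝ))) := by nlinarith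
      _ ≤ _ := by linarith
  have a6 : (5.94 * ((W : ℝ) / m) ^ 2) ^ 2 ≤
      (6 * (((W : ℝ) - m) * ((W : ℝ) - m - 1)) / (((m : ℝ) + 1) * (m + 2))) ^ 2 :=
    pow_le_pow_left₀ (by positivity) a5 2
  refine le_trans ?_ a6
  have : (0 : ℝ) ≤ ((W : ℝ) / m) ^ 4 := by positivity
  have e : (5.94 * ((W : ℝ) / m) ^ 2) ^ 2 = 35.2836 * ((W : ℝ) / m) ^ 4 := by ring
  rw [e]
  nlinarith

theorem avg_lower : ∃ x₀ : ℝ, 0 < x₀ ∧ x₀ ≤ 1 / 1024 ∧ ∀ x : ℝ, 0 < x → x ≤ x₀ →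
    ∀ m : ℕ, 1000 ≤ m → ∀ W : ℕ, 1000 * m ≤ W → ∀ r : ℝ, r = x * (m : ℝ) ^ 2 / (2 * (W : ℝ) ^ 2) →
    ((W.choose m : ℕ) : ℝ) ^ (2 * m) * 2 ^ (m * m) *
      Real.exp (-((m : ℝ) * m * (2 * x + 0.7 * x ^ 2))) ≤
      ∑ q ∈ QQ m W, ∏ q' ∈ VV q, (1 - r ^ (mv q q').card) := by
  obtain ⟨C1, hC1, h1⟩ := moment_row
  obtain ⟨C2, hC2, h2⟩ := moment_col
  refine ⟨min (1 / 1024) (0.0325 / (536872065 + 3 / 8 * (C1 + C2))), ?_, min_le_left _ _, ?_⟩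
  · apply lt_min (by norm_num)
    apply div_pos (by norm_num)
    positivity
  intro x hx0 hx m hm W hW r hr
  have hxa : x ≤ 1 / 1024 := hx.trans (min_le_left _ _)
  have hxb : (536872065 + 3 / 8 * (C1 + C2)) * x ≤ 0.0325 := by
    have h3 : x ≤ 0.0325 / (536872065 + 3 / 8 * (C1 + C2)) := hx.trans (min_le_right _ _)
    rw [le_div_iff₀ (by positivity)] at h3
    linarith
  have hm' : (1000 : ℝ) ≤ m := by exact_mod_cast hm
  have hW' : (1000 : ℝ) * m ≤ W := by exact_mod_cast hW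
  have hm0 : (0 : ℝ) < m := by linarith
  have hW0 : (0 : ℝ) < W := by nlinarith
  have hrw : r * ((W : ℝ) / m) ^ 2 = x / 2 := by
    rw [hr, div_pow]
    field_simp
  have hr0 : 0 ≤ r := by rw [hr]; positivity
  have hr1 : r ≤ x / 200 := by
    rw [hr, div_le_div_iff₀ (by positivity) (by norm_num)]
    have h3 : (1000 * (m : ℝ)) ^ 2 ≤ (W : ℝ) ^ 2 := pow_le_pow_left₀ (by positivity) hW' 2
    have h4 : 0 ≤ x * (m : ℝ) ^ 2 := by positivity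
    nlinarith
  have hr2 : r < 1 := by linarith
  set κ : ℝ := 1 / (1 - r) with hκ
  have hκ1 : 1 ≤ κ := by
    rw [hκ, le_div_iff₀ (by linarith)]
    linarith
  have hκ2 : κ ≤ 1 + x / 100 := by
    rw [hκ, div_le_iff₀ (by linarith)]
    nlinarith
  have hmW : m ≤ W := by omega
  have hA := avg_XX C1 C2 hC1 hC2 m W (by omega) (by omega) κ r (by linarith) hr0
    (by
      have h5 : 2 * r * ((W : ℝ) / m) ^ 2 = x := by linarith
      rw [h5]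
      linarith) h1 h2
  have hE := expo_bound C1 C2 x κ ((W : ℝ) / m)
    (6 * (((W : ℝ) - m) * ((W : ℝ) - m - 1)) / (((m : ℝ) + 1) * (m + 2))) r hC1 hC2 hx0
    (by linarith) hκ1 hκ2 hrw (rho_bound m W hm hW) hxb
  have hne := card_ZZ_pos hmW
  have hS := avg_step m W r hr0 hr2 hne
  rw [← hκ] at hS
  have hcard : (0 : ℝ) < ((ZZ m W).card : ℝ) := by
    exact_mod_cast hne.card_pos
  have hmm : (0 : ℝ) ≤ (m : ℝ) * m := by positivity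
  have hE2 := mul_le_mul_of_nonneg_left hE hmm
  have hE3 := mul_le_mul_of_nonneg_left hE2 hcard.le
  have hE4 := hE3.trans hA
  have hE5 : -((m : ℝ) * m * (2 * x + 0.7 * x ^ 2)) ≤
      ((ZZ m W).card : ℝ)⁻¹ * ∑ z ∈ ZZ m W, XX κ r z := by
    rw [← div_eq_inv_mul, le_div_iff₀ hcard]
    linarith
  have hcz : ((ZZ m W).card : ℝ) = ((W.choose m : ℕ) : ℝ) ^ (2 * m) := by
    rw [card_ZZ]
    push_cast
    rfl
  rw [← hcz]
  refine le_trans ?_ hS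
  apply mul_le_mul_of_nonneg_left _ (by positivity)
  exact Real.exp_le_exp.2 hE5

end

end Pool.Agent.Helper124.SW
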