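import Mathlib

/-!
Definitions for the double switch between the avoider counts of the identity of length `m^2-1`
and the grid permutation of length `m^2`.
-/

namespace Pool.Agent.Helper124.SW

open Finset Classical

noncomputable section

/-- `π` contains the pattern `σ` -/
def Cont {k n : ℕ} (σ : Equiv.Perm (Fin k)) (π : Equiv.Perm (Fin n)) : Prop :=
  ∃ f : Fin k ↪o Fin n, ∀ i j : Fin k, σ i < σ j ↔ π (f i) < π (f j)

/-- number of permutations of length `n` containing `σ` -/
def X {k : ℕ} (n : ℕ) (σ : Equiv.Perm (Fin k)) : ℕ :=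
  Fintype.card {π : Equiv.Perm (Fin n) // Cont σ π}

/-- number of permutations of length `n` avoiding `σ` -/
def Av {k : ℕ} (n : ℕ) (σ : Equiv.Perm (Fin k)) : ℕ :=
  Fintype.card {π : Equiv.Perm (Fin n) // ¬ Cont σ π}

/-- the grid permutation: position `(s,t)` (lexicographic) has value `(t,s)` (lexicographic) -/
def gridPerm (m : ℕ) : Equiv.Perm (Fin (m * m)) :=
  finProdFinEquiv.symm.trans ((Equiv.prodComm (Fin m) (Fin m)).trans finProdFinEquiv)

/-- labelled points of the `N × N` grid: column, row, label -/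
abbrev Pt (N : ℕ) := Fin N × Fin N × Bool

/-- weight of a subset of a finite type under independent inclusion with probability `r` -/
def wt {S : Type*} [Fintype S] (r : ℝ) (ω : Finset S) : ℝ :=
  r ^ ω.card * (1 - r) ^ (Fintype.card S - ω.card)

/-- collision-free: no two different points in the same column or in the same row -/
def CF {N : ℕ} (ω : Finset (Pt N)) : Prop :=
  ∀ a ∈ ω, ∀ b ∈ ω, (a.1 = b.1 ∨ a.2.1 = b.2.1) → a = b

/-- the point set `ω` contains the pattern `σ` -/
def Has {k N : ℕ} (σ : Equiv.Perm (Fin k)) (ω : Finset (Pt N)) : Prop :=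
  ∃ f g : Fin k → Fin N, StrictMono f ∧ StrictMono g ∧ ∀ i, ∃ l, (f i, g (σ i), l) ∈ ω

/-- `ω` contains a strictly increasing chain of length `a` -/
def HasChain {N : ℕ} (a : ℕ) (ω : Finset (Fin N × Fin N)) : Prop :=
  ∃ f g : Fin a → Fin N, StrictMono f ∧ StrictMono g ∧ ∀ i, (f i, g i) ∈ ω

/-- sites sorted by cells: the site `((s,t),(u,v,l))` lies in column `u` of the vertical strip `s`
and in row `v` of the horizontal strip `t`. -/
abbrev Site (m W : ℕ) := (Fin m × Fin m) × (Fin W × Fin W × Bool)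

/-- collision-free sets of sites -/
def CFS {m W : ℕ} (ω : Finset (Site m W)) : Prop :=
  ∀ a ∈ ω, ∀ b ∈ ω, ((a.1.1 = b.1.1 ∧ a.2.1 = b.2.1) ∨ (a.1.2 = b.1.2 ∧ a.2.2.1 = b.2.2.1)) → a = b

/-- placements: one point in every cell `(s,t)` -/
abbrev Plc (m W : ℕ) := Fin m → Fin m → Fin W × Fin W × Bool

/-- a placement forms the grid pattern: in the vertical strip `s` the columns increase with `t`,
in the horizontal strip `t` the rows increase with `s` -/
def Valid {m W : ℕ} (q : Plc m W) : Prop :=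
  (∀ s, StrictMono fun t => (q s t).1) ∧ (∀ t, StrictMono fun s => (q s t).2.1)

/-- the set of sites of a placement -/
def sites {m W : ℕ} (q : Plc m W) : Finset (Site m W) :=
  univ.image fun c : Fin m × Fin m => (c, q c.1 c.2)

/-- the moved cells -/
def mv {m W : ℕ} (q q' : Plc m W) : Finset (Fin m × Fin m) :=
  univ.filter fun c => q' c.1 c.2 ≠ q c.1 c.2

/-- the new sites of `q'` with respect to `q` -/
def newSites {m W : ℕ} (q q' : Plc m W) : Finset (Site m W) :=
  (mv q q').image fun c : Fin m × Fin m => (c, q' c.1 c.2)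

/-- the moved points use new columns and rows -/
def GP {m W : ℕ} (q q' : Plc m W) : Prop :=
  ∀ c ∈ mv q q', (∀ t, (q' c.1 c.2).1 ≠ (q c.1 t).1) ∧ (∀ s, (q' c.1 c.2).2.1 ≠ (q s c.2).2.1)

/-- comparison of keys (label, column) -/
def kl {W : ℕ} (p p' : Fin W × Fin W × Bool) : Prop :=
  (p.2.2 = false ∧ p'.2.2 = true) ∨ (p.2.2 = p'.2.2 ∧ p.1 < p'.1)

/-- adjacent cells -/
def adj {m : ℕ} (c c' : Fin m × Fin m) : Prop :=
  (c.1 = c'.1 ∧ (c.2.val + 1 = c'.2.val ∨ c'.2.val + 1 = c.2.val)) ∨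
  (c.2 = c'.2 ∧ (c.1.val + 1 = c'.1.val ∨ c'.1.val + 1 = c.1.val))

/-- connected sets of cells -/
def Conn {m : ℕ} (R : Finset (Fin m × Fin m)) : Prop :=
  ∀ R₁ ⊆ R, R₁.Nonempty → (∀ a ∈ R₁, ∀ b ∈ R, adj a b → b ∈ R₁) → R₁ = R

/-- single violating moves -/
def V1 {m W : ℕ} (q : Plc m W) : Finset (Plc m W) :=
  univ.filter fun q' => Valid q' ∧ GP q q' ∧ ∃ c : Fin m × Fin m, mv q q' = {c} ∧
    kl (q' c.1 c.2) (q c.1 c.2)

/-- violating double moves in a horizontal strip -/
def V2r {m W : ℕ} (q : Plc m W) : Finset (Plc m W) :=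
  univ.filter fun q' => Valid q' ∧ GP q q' ∧ ∃ s s' t : Fin m, s.val + 1 = s'.val ∧
    mv q q' = {(s, t), (s', t)} ∧ (q s' t).2.1 < (q' s t).2.1 ∧
    kl (q' s t) (q s t) ∧ kl (q s' t) (q' s' t)

/-- violating double moves in a vertical strip -/
def V2c {m W : ℕ} (q : Plc m W) : Finset (Plc m W) :=
  univ.filter fun q' => Valid q' ∧ GP q q' ∧ ∃ s t t' : Fin m, t.val + 1 = t'.val ∧
    mv q q' = {(s, t), (s, t')} ∧ (q s t').1 < (q' s t).1 ∧
    kl (q' s t) (q s t) ∧ kl (q s t') (q' s t')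

/-- connected moves of at least three cells -/
def V3 {m W : ℕ} (q : Plc m W) : Finset (Plc m W) :=
  univ.filter fun q' => Valid q' ∧ GP q q' ∧ Conn (mv q q') ∧ 3 ≤ (mv q q').card

/-- all the minimal violating moves -/
def VV {m W : ℕ} (q : Plc m W) : Finset (Plc m W) := V1 q ∪ V2r q ∪ V2c q ∪ V3 q

/-- all valid placements -/
def QQ (m W : ℕ) : Finset (Plc m W) := univ.filter Valid

/-- strictly increasing maps -/
def SM (m W : ℕ) : Finset (Fin m → Fin W) := univ.filter StrictMono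

/-- number of elements of `Fin W` in the `i`-th gap of `f` -/
def gap {m W : ℕ} (f : Fin m → Fin W) (i : ℕ) : ℕ :=
  (univ.filter fun u : Fin W => (∀ j : Fin m, j.val < i → f j < u) ∧
    (∀ j : Fin m, i ≤ j.val → u < f j)).card

/-- the placement with columns `U`, rows `V` (indexed by horizontal strip first) and labels `L` -/
def mk {m W : ℕ} (U V : Fin m → Fin m → Fin W) (L : Fin m → Fin m → Bool) : Plc m W :=
  fun s t => (U s t, V t s, L s t)

/-- all the positions: columns and rows -/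
def ZZ (m W : ℕ) : Finset ((Fin m → Fin m → Fin W) × (Fin m → Fin m → Fin W)) :=
  (Fintype.piFinset fun _ => SM m W) ×ˢ (Fintype.piFinset fun _ => SM m W)

/-- sum of two consecutive gaps, as a real number -/
def dg {m W : ℕ} (f : Fin m → Fin W) (i : ℕ) : ℝ := (gap f i : ℝ) + gap f (i + 1)

/-- cells with changed columns -/
def mvz {m W : ℕ} (U U' : Fin m → Fin m → Fin W) : Finset (Fin m × Fin m) :=
  univ.filter fun c => U' c.1 c.2 ≠ U c.1 c.2

/-- alternative positions: `z.1 s t` is the column of the cell `(s,t)` in the vertical strip `s`,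
`z.2 t s` its row in the horizontal strip `t`; moved points use new columns and new rows -/
def AltZ {m W : ℕ} (z z' : (Fin m → Fin m → Fin W) × (Fin m → Fin m → Fin W)) : Prop :=
  (∀ s, StrictMono (z'.1 s)) ∧ (∀ t, StrictMono (z'.2 t)) ∧
  ∀ s t, if z'.1 s t = z.1 s t then z'.2 t s = z.2 t s else
    (∀ t', z'.1 s t ≠ z.1 s t') ∧ ∀ s', z'.2 t s ≠ z.2 t s'

/-- weighted number of connected alternatives with at least three moved cells -/
def T3 {m W : ℕ} (p : ℝ) (z : (Fin m → Fin m → Fin W) × (Fin m → Fin m → Fin W)) : ℝ :=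
  ∑ z' : (Fin m → Fin m → Fin W) × (Fin m → Fin m → Fin W),
    if AltZ z z' ∧ Conn (mvz z.1 z'.1) ∧ 3 ≤ (mvz z.1 z'.1).card
    then p ^ (mvz z.1 z'.1).card else 0

/-- some strictly increasing cuts split `M` into `m × m` nonempty blocks -/
def Minor {N : ℕ} (m : ℕ) (M : Finset (Fin N × Fin N)) : Prop :=
  ∃ rr cc : Fin (m + 1) → ℕ, StrictMono rr ∧ StrictMono cc ∧ ∀ i j : Fin m, ∃ z ∈ M,
    rr i.castSucc ≤ z.1.val ∧ z.1.val < rr i.succ ∧ cc j.castSucc ≤ z.2.val ∧ z.2.val < cc j.succ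

end

end Pool.Agent.Helper124.SW
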