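import Pool.Agent.Helper124.SWLemmas

/-!
Lower bound for the probability that some valid placement lies in a collision-free random set.
-/

namespace Pool.Agent.Helper124.SW

open Finset Classical

noncomputable section

theorem wt_nonneg {S : Type*} [Fintype S] {r : ℝ} (h0 : 0 ≤ r) (h1 : r ≤ 1) (ω : Finset S) :
    0 ≤ wt r ω := mul_nonneg (pow_nonneg h0 _) (pow_nonneg (by linarith) _)

theorem card_sites {m W : ℕ} (q : Plc m W) : (sites q).card = m * m := by
  unfold sites
  rw [card_image_of_injective]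
  · simp
  · intro a b h
    exact (Prod.mk.inj h).1

theorem card_newSites {m W : ℕ} (q q' : Plc m W) : (newSites q q').card = (mv q q').card := by
  unfold newSites
  rw [card_image_of_injective]
  intro a b h
  exact (Prod.mk.inj h).1

theorem disj_newSites {m W : ℕ} (q q' : Plc m W) : Disjoint (newSites q q') (sites q) := by
  rw [disjoint_left]
  intro a ha hb
  unfold newSites at ha
  unfold sites at hb
  rw [mem_image] at ha hb
  obtain ⟨c, hc, rfl⟩ := ha
  obtain ⟨d, _, hd⟩ := hb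
  have h1 := (Prod.mk.inj hd).1
  have h2 := (Prod.mk.inj hd).2
  subst h1
  unfold mv at hc
  rw [mem_filter] at hc
  exact hc.2 h2.symm

/-- at most one placement admits no minimal violating move -/
theorem unique_min {m W : ℕ} (ω : Finset (Site m W)) (hω : CFS ω) (q q' : Plc m W)
    (hq : Valid q) (hq' : Valid q') (hqω : sites q ⊆ ω) (hq'ω : sites q' ⊆ ω)
    (hno : ∀ q'' ∈ VV q, ¬ newSites q q'' ⊆ ω) (hno' : ∀ q'' ∈ VV q', ¬ newSites q' q'' ⊆ ω) :
    q = q' := by
  by_contra hne
  let D : Finset (Fin m × Fin m) := univ.filter fun c => q c.1 c.2 ≠ q' c.1 c.2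
  have hD : D.Nonempty := by
    by_contra hD
    rw [not_nonempty_iff_eq_empty] at hD
    apply hne
    funext s t
    by_contra h
    have : (s, t) ∈ D := by
      simp only [D, mem_filter, mem_univ, true_and]
      exact h
    rw [hD] at this
    exact notMem_empty _ this
  obtain ⟨c, hcD, hmin⟩ := exists_min_image D (fun c => c.1.val * m + c.2.val) hD
  have hfirst : ∀ d : Fin m × Fin m, (d.1 < c.1 ∨ (d.1 = c.1 ∧ d.2 < c.2)) →
      q d.1 d.2 = q' d.1 d.2 := by
    intro d hd
    by_contra h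
    have hdD : d ∈ D := by
      simp only [D, mem_filter, mem_univ, true_and]
      exact h
    have h1 := hmin d hdD
    have h2 : d.1.val * m + d.2.val < c.1.val * m + c.2.val := by
      rcases hd with hd | ⟨hd, hd2⟩
      · have h3 : d.1.val + 1 ≤ c.1.val := hd
        have h4 := d.2.isLt
        have h5 : (d.1.val + 1) * m ≤ c.1.val * m := Nat.mul_le_mul_right m h3
        have h6 : (d.1.val + 1) * m = d.1.val * m + m := by ring
        omega
      · rw [hd]
        have : d.2.val < c.2.val := hd2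
        omega
    omega
  have hcne : q c.1 c.2 ≠ q' c.1 c.2 := by
    simp only [D, mem_filter, mem_univ, true_and] at hcD
    exact hcD
  have hmem1 : ((c, q c.1 c.2) : Site m W) ∈ ω := hqω (by
    unfold sites; exact mem_image.2 ⟨c, mem_univ _, rfl⟩)
  have hmem2 : ((c, q' c.1 c.2) : Site m W) ∈ ω := hq'ω (by
    unfold sites; exact mem_image.2 ⟨c, mem_univ _, rfl⟩)
  have hcol : (q c.1 c.2).1 ≠ (q' c.1 c.2).1 := by
    intro h
    have := hω _ hmem1 _ hmem2 (Or.inl ⟨rfl, h⟩)
    exact hcne (Prod.mk.inj this).2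
  have htot : kl (q' c.1 c.2) (q c.1 c.2) ∨ kl (q c.1 c.2) (q' c.1 c.2) := by
    unfold kl
    rcases hl : (q c.1 c.2).2.2 with _ | _ <;> rcases hl' : (q' c.1 c.2).2.2 with _ | _
    · rcases lt_or_gt_of_ne hcol with h | h
      · right; right; exact ⟨rfl, h⟩
      · left; right; exact ⟨rfl, h⟩
    · right; left; exact ⟨rfl, rfl⟩
    · left; left; exact ⟨rfl, rfl⟩
    · rcases lt_or_gt_of_ne hcol with h | h
      · right; right; exact ⟨rfl, h⟩
      · left; right; exact ⟨rfl, h⟩
  rcases htot with h | h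
  · exact comb_key ω hω q hq hqω hno q' hq' hq'ω c h (fun d hd => (hfirst d hd).symm)
  · exact comb_key ω hω q' hq' hq'ω hno' q hq hqω c h hfirst

theorem exist_lower {m W : ℕ} (r : ℝ) (h0 : 0 ≤ r) (h1 : r ≤ 1) :
    ∑ q ∈ QQ m W, r ^ (m * m) * (∏ q' ∈ VV q, (1 - r ^ (mv q q').card) -
      (4 * (m * m) * (m * W) * r + 4 * (m * W) ^ 3 * r ^ 2)) ≤
    ∑ ω : Finset (Site m W), if CFS ω ∧ ∃ q, Valid q ∧ sites q ⊆ ω then wt r ω else 0 := by
  -- indicator of the canonical event
  let K : Plc m W → Finset (Site m W) → Prop := fun q ω =>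
    CFS ω ∧ sites q ⊆ ω ∧ ∀ q' ∈ VV q, ¬ newSites q q' ⊆ ω
  have hstep1 : ∀ ω : Finset (Site m W), ∑ q ∈ QQ m W, (if K q ω then wt r ω else 0) ≤
      if CFS ω ∧ ∃ q, Valid q ∧ sites q ⊆ ω then wt r ω else 0 := by
    intro ω
    by_cases hex : ∃ q ∈ QQ m W, K q ω
    · obtain ⟨q, hq, hK⟩ := hex
      have hqv : Valid q := (mem_filter.1 hq).2
      rw [Finset.sum_eq_single q]
      · rw [if_pos hK, if_pos ⟨hK.1, q, hqv, hK.2.1⟩]
      · intro q' hq' hne
        rw [if_neg]
        intro hK'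
        exact hne (unique_min ω hK.1 q' q (mem_filter.1 hq').2 hqv hK'.2.1 hK.2.1 hK'.2.2 hK.2.2)
      · intro h
        exact absurd hq h
    · rw [Finset.sum_eq_zero]
      · split_ifs
        · exact wt_nonneg h0 h1 ω
        · exact le_rfl
      · intro q hq
        rw [if_neg]
        intro hK
        exact hex ⟨q, hq, hK⟩
  have hstep2 : ∀ q ∈ QQ m W, r ^ (m * m) * (∏ q' ∈ VV q, (1 - r ^ (mv q q').card) -
      (4 * (m * m) * (m * W) * r + 4 * (m * W) ^ 3 * r ^ 2)) ≤
      ∑ ω : Finset (Site m W), (if K q ω then wt r ω else 0) := by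
    intro q hq
    have hqv : Valid q := (mem_filter.1 hq).2
    have hf0 := fkg_family r h0 h1 (VV q) (fun q' => newSites q q') (sites q)
      (fun q' _ => disj_newSites q q')
    simp only [card_newSites, card_sites] at hf0
    have hf : r ^ (m * m) * ∏ q' ∈ VV q, (1 - r ^ (mv q q').card) ≤
        ∑ ω : Finset (Site m W),
          (if sites q ⊆ ω ∧ ∀ i ∈ VV q, ¬ newSites q i ⊆ ω then wt r ω else 0) :=
      le_of_le_of_eq hf0 (Finset.sum_congr rfl fun ω _ => by congr)
    have hc : (∑ ω : Finset (Site m W), (if sites q ⊆ ω ∧ ¬ CFS ω then wt r ω else 0)) ≤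
      r ^ (m * m) * (4 * (m * m) * (m * W) * r + 4 * (m * W) ^ 3 * r ^ 2) :=
      le_of_eq_of_le (Finset.sum_congr rfl fun ω _ => by congr) (coll_bound r h0 h1 q hqv)
    have hpt : ∀ ω : Finset (Site m W),
        (if sites q ⊆ ω ∧ ∀ i ∈ VV q, ¬ newSites q i ⊆ ω then wt r ω else 0) ≤
        (if K q ω then wt r ω else 0) + (if sites q ⊆ ω ∧ ¬ CFS ω then wt r ω else 0) := by
      intro ω
      have hw := wt_nonneg h0 h1 ω
      by_cases hcf : CFS ω
      · by_cases h2 : sites q ⊆ ω ∧ ∀ i ∈ VV q, ¬ newSites q i ⊆ ω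
        · rw [if_pos h2, if_pos (show K q ω from ⟨hcf, h2.1, h2.2⟩)]
          split_ifs <;> linarith
        · rw [if_neg h2]
          split_ifs <;> linarith
      · by_cases h2 : sites q ⊆ ω ∧ ∀ i ∈ VV q, ¬ newSites q i ⊆ ω
        · rw [if_pos h2, if_neg (show ¬ K q ω from fun h => hcf h.1), if_pos ⟨h2.1, hcf⟩]
          linarith
        · rw [if_neg h2]
          split_ifs <;> linarith
    have hsum := Finset.sum_le_sum fun ω (_ : ω ∈ (univ : Finset (Finset (Site m W)))) => hpt ω
    rw [Finset.sum_add_distrib] at hsum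
    have h3 : r ^ (m * m) * (∏ q' ∈ VV q, (1 - r ^ (mv q q').card) -
      (4 * (m * m) * (m * W) * r + 4 * (m * W) ^ 3 * r ^ 2)) =
      r ^ (m * m) * ∏ q' ∈ VV q, (1 - r ^ (mv q q').card) -
      r ^ (m * m) * (4 * (m * m) * (m * W) * r + 4 * (m * W) ^ 3 * r ^ 2) := by ring
    rw [h3]
    linarith
  calc _ ≤ ∑ q ∈ QQ m W, ∑ ω : Finset (Site m W), (if K q ω then wt r ω else 0) :=
        Finset.sum_le_sum hstep2
    _ = ∑ ω : Finset (Site m W), ∑ q ∈ QQ m W, (if K q ω then wt r ω else 0) :=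
        Finset.sum_comm
    _ ≤ _ := Finset.sum_le_sum fun ω _ => hstep1 ω

end

end Pool.Agent.Helper124.SW
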