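import Pool.Agent.Helper124.SWSwitch

/-!
At some larger length more permutations avoid the grid permutation.
-/

namespace Pool.Agent.Helper124.SW

open Finset Classical

noncomputable section

theorem poly_lt_pow (C : ℕ) : ∃ c₀ : ℕ, ∀ c : ℕ, c₀ ≤ c → C * (4 * c + 5) ^ 4 * 2 ≤ 2 ^ c := by
  have h := tendsto_pow_const_div_const_pow_of_one_lt 4 (show (1 : ℝ) < 2 by norm_num)
  have h2 : ∀ᶠ n : ℕ in Filter.atTop, (n : ℝ) ^ 4 / 2 ^ n < 1 / (13122 * (C : ℝ) + 1) :=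
    h.eventually (gt_mem_nhds (by positivity))
  obtain ⟨c₀, hc₀⟩ := Filter.eventually_atTop.1 h2
  refine ⟨c₀ + 1, ?_⟩
  intro c hc
  have h3 := hc₀ c (by omega)
  rw [div_lt_div_iff₀ (by positivity) (by positivity)] at h3
  have h4 : c ^ 4 * (13122 * C + 1) ≤ 2 ^ c := by
    have : (c : ℝ) ^ 4 * (13122 * (C : ℝ) + 1) ≤ 2 ^ c := by linarith
    exact_mod_cast this
  have h5 : (4 * c + 5) ^ 4 ≤ (9 * c) ^ 4 := Nat.pow_le_pow_left (by omega) 4
  calc C * (4 * c + 5) ^ 4 * 2 ≤ C * (9 * c) ^ 4 * 2 :=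
        Nat.mul_le_mul_right 2 (Nat.mul_le_mul_left C h5)
    _ = c ^ 4 * (13122 * C) := by ring
    _ ≤ c ^ 4 * (13122 * C + 1) := Nat.mul_le_mul_left _ (Nat.le_succ _)
    _ ≤ 2 ^ c := h4

/-- `n! > (n/3)^n` -/
theorem factorial_gt (n : ℕ) (hn : 1 ≤ n) : (n : ℝ) ^ n < 3 ^ n * n.factorial := by
  have h1 := Real.pow_div_factorial_le_exp (x := (n : ℝ)) (by positivity) n
  have h2 : (0 : ℝ) < n.factorial := by exact_mod_cast n.factorial_pos
  rw [div_le_iff₀ h2] at h1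
  have h3 : Real.exp (n : ℝ) < 3 ^ n := by
    have h4 : Real.exp (n : ℝ) = Real.exp 1 ^ n := by
      rw [← Real.exp_nat_mul]
      simp
    rw [h4]
    have h5 := Real.exp_one_lt_d9
    apply pow_lt_pow_left₀ (by linarith) (Real.exp_pos _).le
    omega
  calc (n : ℝ) ^ n ≤ Real.exp (n : ℝ) * n.factorial := h1
    _ < 3 ^ n * n.factorial := mul_lt_mul_of_pos_right h3 h2

theorem switch_large : ∃ M : ℕ, ∀ m : ℕ, M ≤ m → ∃ n : ℕ, 8 * m ^ 4 ≤ n ∧
    Av n (1 : Equiv.Perm (Fin (m * m - 1))) < Av n (gridPerm m) := by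
  obtain ⟨C, hC⟩ := dense_matrix (fun a b q t hq h => zero_set a b q t hq h)
  obtain ⟨c₀, hc₀⟩ := poly_lt_pow C
  refine ⟨2 ^ c₀ + 2, ?_⟩
  intro m hm
  set c : ℕ := Nat.clog 2 m with hc
  have hpos2 : 0 < 2 ^ c₀ := by positivity
  have hm2 : 2 ≤ m := by omega
  have hc1 : m ≤ 2 ^ c := Nat.le_pow_clog (by norm_num) m
  have hc2 : 2 ^ (c - 1) < m := by
    have := Nat.pow_pred_clog_lt_self (b := 2) (by norm_num) (x := m) (by omega)
    simpa using this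
  have hc3 : c₀ ≤ c := by
    have h1 : 2 ^ c₀ ≤ 2 ^ c := by omega
    exact (Nat.pow_le_pow_iff_right (by norm_num)).1 h1
  have hcpos : 1 ≤ c := by
    by_contra h0
    have : c = 0 := by omega
    rw [this] at hc1
    omega
  have hc4 : C * (4 * c + 5) ^ 4 ≤ m := by
    have h1 := hc₀ c hc3
    have h2 : 2 ^ c = 2 ^ (c - 1) * 2 := by
      rw [← pow_succ]
      congr 1
      omega
    rw [h2] at h1
    have h3 := Nat.le_of_mul_le_mul_right h1 (by norm_num)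
    omega
  set n : ℕ := 2 ^ (4 * c + 3) with hn
  have hn1 : 8 * m ^ 4 ≤ n := by
    have h1 : n = 8 * (2 ^ c) ^ 4 := by
      rw [hn, pow_add, ← pow_mul]
      have : 4 * c = c * 4 := by ring
      rw [this]
      ring
    rw [h1]
    exact Nat.mul_le_mul_left 8 (Nat.pow_le_pow_left hc1 4)
  refine ⟨n, hn1, ?_⟩
  have hM := hC m (4 * c + 4) (by
    have : 4 * c + 4 + 1 = 4 * c + 5 := by ring
    rw [this]
    exact hc4)
  have h2n : 2 ^ (4 * c + 4) = 2 * n := by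
    rw [hn, ← pow_succ']
  rw [h2n] at hM
  obtain ⟨Mx, hM1, hM2⟩ := hM
  have hcount := count_av m n (by omega) Mx hM1 hM2
  have hmm : m * m - 1 = (m * m - 2) + 1 := by
    have : 2 * 2 ≤ m * m := Nat.mul_le_mul hm2 hm2
    omega
  have hid : Av n (1 : Equiv.Perm (Fin (m * m - 1))) ≤ (m * m - 2) ^ (2 * n) := by
    rw [hmm]
    exact id_av_le (m * m - 2) n
  have hnpos : 1 ≤ n := Nat.one_le_two_pow
  have hfac := factorial_gt n hnpos
  have hkey : 2 ^ n * (m * m - 2) ^ (2 * n) < n.factorial := by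
    have h1 : (2 : ℝ) ^ n * ((m : ℝ) * m) ^ (2 * n) * 3 ^ n ≤ (n : ℝ) ^ n := by
      have h2 : (2 : ℝ) ^ n * ((m : ℝ) * m) ^ (2 * n) * 3 ^ n = (6 * (m : ℝ) ^ 4) ^ n := by
        rw [pow_mul, ← mul_pow, ← mul_pow]
        congr 1
        ring
      rw [h2]
      apply pow_le_pow_left₀ (by positivity)
      have h3 : (8 : ℝ) * (m : ℝ) ^ 4 ≤ n := by exact_mod_cast hn1
      have h4 : (0 : ℝ) ≤ (m : ℝ) ^ 4 := by positivity
      linarith
    have h5 : (2 : ℝ) ^ n * ((m : ℝ) * m) ^ (2 * n) < n.factorial := by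
      have h6 : (2 : ℝ) ^ n * ((m : ℝ) * m) ^ (2 * n) * 3 ^ n < n.factorial * 3 ^ n := by
        linarith
      exact lt_of_mul_lt_mul_right h6 (by positivity)
    have h7 : 2 ^ n * (m * m) ^ (2 * n) < n.factorial := by exact_mod_cast h5
    calc 2 ^ n * (m * m - 2) ^ (2 * n) ≤ 2 ^ n * (m * m) ^ (2 * n) :=
          Nat.mul_le_mul_left _ (Nat.pow_le_pow_left (by omega) _)
      _ < _ := h7
  have h8 : 2 ^ n * Av n (1 : Equiv.Perm (Fin (m * m - 1))) < 2 ^ n * Av n (gridPerm m) :=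
    calc 2 ^ n * Av n (1 : Equiv.Perm (Fin (m * m - 1))) ≤ 2 ^ n * (m * m - 2) ^ (2 * n) :=
          Nat.mul_le_mul_left _ hid
      _ < n.factorial := hkey
      _ ≤ _ := hcount
  exact Nat.lt_of_mul_lt_mul_left h8

theorem X_add_Av {k : ℕ} (n : ℕ) (σ : Equiv.Perm (Fin k)) : X n σ + Av n σ = n.factorial := by
  unfold X Av
  rw [← Fintype.card_fin n, ← Fintype.card_perm, Fintype.card_fin]
  have h := Fintype.card_subtype_compl (fun π : Equiv.Perm (Fin n) => Cont σ π)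
  have h2 := Fintype.card_subtype_le (fun π : Equiv.Perm (Fin n) => Cont σ π)
  omega

theorem X_eq_zero {k : ℕ} (n : ℕ) (σ : Equiv.Perm (Fin k)) (h : n < k) : X n σ = 0 := by
  unfold X
  rw [Fintype.card_eq_zero_iff]
  refine ⟨?_⟩
  rintro ⟨π, f, -⟩
  have := Fintype.card_le_of_injective f f.injective
  simp only [Fintype.card_fin] at this
  omega

theorem X_id_pos (k : ℕ) : 0 < X k (1 : Equiv.Perm (Fin k)) := by
  unfold X
  apply Fintype.card_pos_iff.2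
  exact ⟨⟨1, RelEmbedding.refl _, fun i j => Iff.rfl⟩⟩

theorem double_switch : ∃ m n₁ n₂ n₃ : ℕ, n₁ < n₂ ∧ n₂ < n₃ ∧
    Av n₁ (1 : Equiv.Perm (Fin (m * m - 1))) < Av n₁ (gridPerm m) ∧
    Av n₂ (gridPerm m) < Av n₂ (1 : Equiv.Perm (Fin (m * m - 1))) ∧
    Av n₃ (1 : Equiv.Perm (Fin (m * m - 1))) < Av n₃ (gridPerm m) := by
  obtain ⟨M₁, H₁⟩ := switch_mid
  obtain ⟨M₂, H₂⟩ := switch_large
  set m : ℕ := M₁ + M₂ + 1 with hm
  obtain ⟨n₂, h2a, h2b⟩ := H₁ m (by omega)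
  obtain ⟨n₃, h3a, h3b⟩ := H₂ m (by omega)
  have hmpos : 1 ≤ m * m := Nat.mul_pos (by omega) (by omega)
  refine ⟨m, m * m - 1, n₂, n₃, ?_, ?_, ?_, ?_, h3b⟩
  · by_contra hlt
    have h := X_eq_zero n₂ (gridPerm m) (by omega)
    omega
  · have : 1 ≤ m ^ 4 := Nat.one_le_pow _ _ (by omega)
    omega
  · have e1 := X_add_Av (m * m - 1) (1 : Equiv.Perm (Fin (m * m - 1)))
    have e2 := X_add_Av (m * m - 1) (gridPerm m)
    have e3 := X_id_pos (m * m - 1)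
    have e4 := X_eq_zero (m * m - 1) (gridPerm m) (by omega)
    omega
  · have e1 := X_add_Av n₂ (1 : Equiv.Perm (Fin (m * m - 1)))
    have e2 := X_add_Av n₂ (gridPerm m)
    omega

end

end Pool.Agent.Helper124.SW
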