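import Pool.Agent.Helper124.SWJ.J1
import Pool.Agent.Helper124.SWJ.J2
import Pool.Agent.Helper124.SWJ.J3
import Pool.Agent.Helper124.SWJ.J4
import Pool.Agent.Helper124.SWJ.J5
import Pool.Agent.Helper124.SWJ.J6
import Pool.Agent.Helper124.SWJ.J7
import Pool.Agent.Helper124.SWJ.J9
import Pool.Agent.Helper124.SWJ.J10
import Pool.Agent.Helper124.SWJ.J11
import Pool.Agent.Helper124.SWJ.J12a
import Pool.Agent.Helper124.SWJ.J12b
import Pool.Agent.Helper124.SWJ.J12c
import Pool.Agent.Helper124.SWJ.J12d
import Pool.Agent.Helper124.SWJ.J13a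
import Pool.Agent.Helper124.SWJ.J13b
import Pool.Agent.Helper124.SWJ.J14a
import Pool.Agent.Helper124.SWJ.J14b
import Pool.Agent.Helper124.SWJ.J15
import Pool.Agent.Helper124.SWJ.J17
import Pool.Agent.Helper124.SWJ.J18
import Pool.Agent.Helper124.SWJ.J19
import Pool.Agent.Helper124.SWJ.J20

/-!
The lemmas on the grid permutation, collected.
-/

namespace Pool.Agent.Helper124.SW

export J1 (lis_tail)
export J2 (proj_label)
export J3 (card_cf_has)
export J4 (transport)
export J5 (fkg_family)
export J6 (coll_bound)
export J7 (comb_key)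
export J9 (conn_count)
export J10 (strip_count)
export J11 (T3_avg)
export J12a (card_V1)
export J12b (card_V2r)
export J12c (card_V2c)
export J12d (V3_le)
export J13a (sum_choose_gap sum_gap_mul)
export J13b (gap_moment)
export J14a (moment_one moment_two moment_four)
export J14b (moment_row moment_col)
export J15 (jensen_tilt)
export J17 (zero_set)
export J18 (dense_matrix)
export J19 (count_av)
export J20 (id_av_le)

end Pool.Agent.Helper124.SW
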