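import Pool.Agent.Helper124.SWAvg4
import Pool.Agent.Helper124.SWExist

/-!
Comparison of the numbers of permutations containing the two patterns at some moderate length.
-/

namespace Pool.Agent.Helper124.SW

open Finset Classical

noncomputable section

/-- comparison: if `X n τ ≤ X n σ` for all `n ≤ K` then the probabilities compare -/
theorem compare {k k' : ℕ} (N K : ℕ) (σ : Equiv.Perm (Fin k)) (τ : Equiv.Perm (Fin k'))
    (r : ℝ) (h0 : 0 ≤ r) (h1 : r ≤ 1) (h : ∀ n ≤ K, X n τ ≤ X n σ) :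
    (∑ ω : Finset (Pt N), if CF ω ∧ Has τ ω then wt r ω else 0) ≤
      (∑ ω : Finset (Pt N), if Has σ ω then wt r ω else 0) +
      ∑ ω : Finset (Pt N), if K < ω.card then wt r ω else 0 := by
  have hsplit : ∀ (k : ℕ) (ρ : Equiv.Perm (Fin k)), (∑ ω : Finset (Pt N),
      if (CF ω ∧ Has ρ ω) ∧ ω.card ≤ K then wt r ω else 0) =
      ∑ n ∈ range (K + 1), ∑ ω : Finset (Pt N),
        if (CF ω ∧ Has ρ ω) ∧ ω.card = n then wt r ω else 0 := by
    intro k ρ
    rw [Finset.sum_comm]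
    apply Finset.sum_congr rfl
    intro ω _
    by_cases hP : (CF ω ∧ Has ρ ω) ∧ ω.card ≤ K
    · rw [if_pos hP, Finset.sum_eq_single ω.card]
      · rw [if_pos ⟨hP.1, rfl⟩]
      · intro n _ hn
        rw [if_neg]
        intro h
        exact hn h.2.symm
      · intro hn
        exfalso
        apply hn
        rw [mem_range]
        omega
    · rw [if_neg hP]
      symm
      apply Finset.sum_eq_zero
      intro n hn
      rw [mem_range] at hn
      rw [if_neg]
      intro h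
      exact hP ⟨h.1, by omega⟩
  have hcount : ∀ (k : ℕ) (ρ : Equiv.Perm (Fin k)) (n : ℕ), (∑ ω : Finset (Pt N),
      if (CF ω ∧ Has ρ ω) ∧ ω.card = n then wt r ω else 0) =
      ((N.choose n : ℝ)) ^ 2 * 2 ^ n * X n ρ * (r ^ n * (1 - r) ^ (Fintype.card (Pt N) - n)) := by
    intro k ρ n
    have e1 := card_cf_has N n k ρ
    have e2 : (∑ ω : Finset (Pt N), if (CF ω ∧ Has ρ ω) ∧ ω.card = n then wt r ω else 0) =
        ∑ ω ∈ univ.filter (fun ω : Finset (Pt N) => CF ω ∧ ω.card = n ∧ Has ρ ω),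
          (r ^ n * (1 - r) ^ (Fintype.card (Pt N) - n)) := by
      rw [Finset.sum_filter]
      apply Finset.sum_congr rfl
      intro ω _
      by_cases hh : (CF ω ∧ Has ρ ω) ∧ ω.card = n
      · rw [if_pos hh, if_pos ⟨hh.1.1, hh.2, hh.1.2⟩]
        unfold wt
        rw [hh.2]
      · rw [if_neg hh, if_neg]
        intro h3
        exact hh ⟨⟨h3.1, h3.2.2⟩, h3.2.1⟩
    rw [e2, Finset.sum_const, nsmul_eq_mul]
    congr 1
    have e3 : ((univ.filter (fun ω : Finset (Pt N) => CF ω ∧ ω.card = n ∧ Has ρ ω)).card : ℝ) =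
      (((N.choose n) ^ 2 * 2 ^ n * X n ρ : ℕ) : ℝ) := by
      rw [← e1]
    rw [e3]
    push_cast
    ring
  have step1 : (∑ ω : Finset (Pt N), if CF ω ∧ Has τ ω then wt r ω else 0) ≤
      (∑ ω : Finset (Pt N), if (CF ω ∧ Has τ ω) ∧ ω.card ≤ K then wt r ω else 0) +
      ∑ ω : Finset (Pt N), if K < ω.card then wt r ω else 0 := by
    rw [← Finset.sum_add_distrib]
    apply Finset.sum_le_sum
    intro ω _
    have hw := wt_nonneg h0 h1 ω
    by_cases hK : K < ω.card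
    · rw [if_neg (show ¬ ((CF ω ∧ Has τ ω) ∧ ω.card ≤ K) from fun h => by omega), if_pos hK]
      split_ifs <;> linarith
    · rw [if_neg hK]
      by_cases hh : CF ω ∧ Has τ ω
      · rw [if_pos hh, if_pos ⟨hh, by omega⟩]
        linarith
      · rw [if_neg hh, if_neg (fun h => hh h.1)]
        linarith
  have step2 : (∑ ω : Finset (Pt N), if (CF ω ∧ Has τ ω) ∧ ω.card ≤ K then wt r ω else 0) ≤
      (∑ ω : Finset (Pt N), if (CF ω ∧ Has σ ω) ∧ ω.card ≤ K then wt r ω else 0) := by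
    rw [hsplit, hsplit]
    apply Finset.sum_le_sum
    intro n hn
    rw [mem_range] at hn
    rw [hcount, hcount]
    apply mul_le_mul_of_nonneg_right
    · apply mul_le_mul_of_nonneg_left
      · exact_mod_cast h n (by omega)
      · positivity
    · apply mul_nonneg (pow_nonneg h0 _)
      apply pow_nonneg
      linarith
  have step3 : (∑ ω : Finset (Pt N), if (CF ω ∧ Has σ ω) ∧ ω.card ≤ K then wt r ω else 0) ≤
      (∑ ω : Finset (Pt N), if Has σ ω then wt r ω else 0) := by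
    apply Finset.sum_le_sum
    intro ω _
    have hw := wt_nonneg h0 h1 ω
    by_cases hh : (CF ω ∧ Has σ ω) ∧ ω.card ≤ K
    · rw [if_pos hh, if_pos hh.1.2]
    · rw [if_neg hh]
      split_ifs <;> linarith
  linarith

theorem tail_bound (N K : ℕ) (r : ℝ) (h0 : 0 ≤ r) (h1 : r ≤ 1) :
    (∑ ω : Finset (Pt N), if K < ω.card then wt r ω else 0) ≤
      Real.exp (2 * (N : ℝ) ^ 2 * r) / 2 ^ K := by
  have hcard : Fintype.card (Pt N) = 2 * N ^ 2 := by
    simp [Pt]
    ring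
  rw [le_div_iff₀ (by positivity), Finset.sum_mul]
  calc ∑ ω : Finset (Pt N), (if K < ω.card then wt r ω else 0) * 2 ^ K
      ≤ ∑ ω : Finset (Pt N), (2 * r) ^ ω.card * (1 - r) ^ (Fintype.card (Pt N) - ω.card) := by
        apply Finset.sum_le_sum
        intro ω _
        have h2 : 0 ≤ (1 - r) ^ (Fintype.card (Pt N) - ω.card) := pow_nonneg (by linarith) _
        by_cases hK : K < ω.card
        · rw [if_pos hK]
          unfold wt
          have h3 : (2 : ℝ) ^ K ≤ 2 ^ ω.card := pow_le_pow_right₀ (by norm_num) hK.le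
          have h4 : 0 ≤ r ^ ω.card * (1 - r) ^ (Fintype.card (Pt N) - ω.card) :=
            mul_nonneg (pow_nonneg h0 _) h2
          calc r ^ ω.card * (1 - r) ^ (Fintype.card (Pt N) - ω.card) * 2 ^ K ≤
              r ^ ω.card * (1 - r) ^ (Fintype.card (Pt N) - ω.card) * 2 ^ ω.card :=
                mul_le_mul_of_nonneg_left h3 h4
            _ = _ := by rw [mul_pow]; ring
        · rw [if_neg hK, zero_mul]
          positivity
    _ = (2 * r + (1 - r)) ^ Fintype.card (Pt N) := Fintype.sum_pow_mul_eq_add_pow _ _ _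
    _ = (1 + r) ^ (2 * N ^ 2) := by rw [hcard]; congr 1; ring
    _ ≤ (Real.exp r) ^ (2 * N ^ 2) := by
        apply pow_le_pow_left₀ (by linarith)
        have := Real.add_one_le_exp r
        linarith
    _ = Real.exp (2 * (N : ℝ) ^ 2 * r) := by
        rw [← Real.exp_nat_mul]
        push_cast
        ring_nf

theorem log_bound {x : ℝ} (hx0 : 0 < x) (hx1 : x < 1) :
    -Real.log (1 - x) ≤ x / (1 - x) - x ^ 2 / 2 := by
  have h := Real.abs_log_sub_add_sum_range_le (show |x| < 1 by rw [abs_of_pos hx0]; exact hx1) 2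
  rw [abs_of_pos hx0] at h
  have h2 := (abs_le.1 h).1
  rw [Finset.sum_range_succ, Finset.sum_range_succ, Finset.sum_range_zero] at h2
  have h3 : x / (1 - x) = x + x ^ 2 + x ^ 3 / (1 - x) := by
    have : (1 - x) ≠ 0 := by linarith
    field_simp
    ring
  rw [h3]
  have h4 : x ^ (2 + 1) = x ^ 3 := by norm_num
  rw [h4] at h2
  norm_num at h2
  linarith

/-- upper bound for long increasing subsequences -/
theorem id_upper (m W : ℕ) (hm : 1 ≤ m) (hW : m ≤ W) (x r : ℝ) (hx0 : 0 < x) (hx1 : x ≤ 1 / 4)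
    (hr : r = x * (m : ℝ) ^ 2 / (2 * (W : ℝ) ^ 2)) :
    (∑ ω : Finset (Pt (m * W)), if Has (1 : Equiv.Perm (Fin (m * m - 1))) ω then wt r ω else 0) ≤
      (1 / x) * Real.exp ((m : ℝ) ^ 2 * (2 - 2 * x - x ^ 2 + Real.log x)) := by
  have hm0 : (0 : ℝ) < m := by exact_mod_cast hm
  have hW0 : (0 : ℝ) < W := by
    have : 1 ≤ W := by omega
    exact_mod_cast this
  have hmW : (m : ℝ) ≤ W := by exact_mod_cast hW
  have hr0 : 0 ≤ r := by rw [hr]; positivity
  have hr1 : r ≤ 1 / 8 := by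
    rw [hr, div_le_iff₀ (by positivity)]
    have h3 : (m : ℝ) ^ 2 ≤ (W : ℝ) ^ 2 := pow_le_pow_left₀ hm0.le hmW 2
    have h4 : (0 : ℝ) < (W : ℝ) ^ 2 := by positivity
    nlinarith
  rw [proj_label]
  set p : ℝ := 1 - (1 - r) ^ 2 with hp
  have hp0 : 0 ≤ p := by rw [hp]; nlinarith
  have hp1 : p ≤ 1 := by rw [hp]; nlinarith [sq_nonneg (1 - r)]
  have hp2 : p ≤ 2 * r := by rw [hp]; nlinarith [sq_nonneg r]
  set γ : ℝ := (1 - x) ^ 2 / x with hγ
  have hγ1 : 1 ≤ γ := by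
    rw [hγ, le_div_iff₀ hx0]
    nlinarith
  have hγ0 : 0 < γ := by linarith
  set o : ℝ := Real.sqrt (p / γ) with ho
  have ho0 : 0 ≤ o := Real.sqrt_nonneg _
  have ho2 : γ * o ^ 2 = p := by
    rw [ho, Real.sq_sqrt (div_nonneg hp0 hγ0.le)]
    field_simp
  have hoU : o ≤ x / (1 - x) * ((m : ℝ) / W) := by
    rw [ho]
    apply Real.sqrt_le_iff.2
    have h1x : 0 < 1 - x := by linarith
    refine ⟨by positivity, ?_⟩
    rw [div_le_iff₀ hγ0]
    have : (x / (1 - x) * ((m : ℝ) / W)) ^ 2 * γ = 2 * r := by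
      rw [hγ, hr]
      field_simp
    rw [this]
    exact hp2
  have hlis := lis_tail (m * W) (m * m - 1) p γ o hp0 hp1 hγ1 ho0 ho2
  set S : ℝ := ∑ ω : Finset (Fin (m * W) × Fin (m * W)),
    if HasChain (m * m - 1) ω then wt p ω else 0 with hS
  have hS0 : 0 ≤ S := by
    rw [hS]
    apply Finset.sum_nonneg
    intro ω _
    split_ifs
    · exact wt_nonneg hp0 hp1 ω
    · exact le_rfl
  -- S γ^(m²-1) ≤ exp(2N (γ-1) o)
  have hb : (1 + γ * o) ≤ (1 + o) * Real.exp ((γ - 1) * o) := by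
    have h2 := Real.add_one_le_exp ((γ - 1) * o)
    have h3 : 0 ≤ (γ - 1) * o := mul_nonneg (by linarith) ho0
    have h4 : (1 + o) * (1 + (γ - 1) * o) ≤ (1 + o) * Real.exp ((γ - 1) * o) :=
      mul_le_mul_of_nonneg_left (by linarith) (by linarith)
    nlinarith
  have hb2 : (1 + γ * o) ^ (2 * (m * W)) ≤
      (1 + o) ^ (2 * (m * W)) * Real.exp ((γ - 1) * o) ^ (2 * (m * W)) := by
    rw [← mul_pow]
    exact pow_le_pow_left₀ (by positivity) hb _
  have hb3 : S * γ ^ (m * m - 1) ≤ Real.exp ((γ - 1) * o) ^ (2 * (m * W)) := by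
    have h5 : (0 : ℝ) < (1 + o) ^ (2 * (m * W)) := by positivity
    have h6 := hlis.trans hb2
    have h7 : S * γ ^ (m * m - 1) * (1 + o) ^ (2 * (m * W)) ≤
        Real.exp ((γ - 1) * o) ^ (2 * (m * W)) * (1 + o) ^ (2 * (m * W)) := by
      linarith
    exact le_of_mul_le_mul_right h7 h5
  have hb4 : Real.exp ((γ - 1) * o) ^ (2 * (m * W)) ≤
      Real.exp (2 * (m : ℝ) ^ 2 * ((1 - x) - x / (1 - x))) := by
    rw [← Real.exp_nat_mul]
    apply Real.exp_le_exp.2
    push_cast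
    have h1x : 0 < 1 - x := by linarith
    have h8 : 2 * ((m : ℝ) * W) * ((γ - 1) * o) ≤
        2 * ((m : ℝ) * W) * ((γ - 1) * (x / (1 - x) * ((m : ℝ) / W))) := by
      apply mul_le_mul_of_nonneg_left _ (by positivity)
      exact mul_le_mul_of_nonneg_left hoU (by linarith)
    refine h8.trans (le_of_eq ?_)
    rw [hγ]
    field_simp
  have hb5 : S * γ ^ (m * m - 1) ≤ Real.exp (2 * (m : ℝ) ^ 2 * ((1 - x) - x / (1 - x))) :=
    hb3.trans hb4
  have hpow : γ ^ (m * m - 1) * γ = Real.exp ((m : ℝ) ^ 2 * Real.log γ) := by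
    rw [← pow_succ]
    have : m * m - 1 + 1 = m * m := by
      have : 1 ≤ m * m := Nat.mul_pos hm hm
      omega
    rw [this]
    have h9 : (m : ℝ) ^ 2 * Real.log γ = ((m * m : ℕ) : ℝ) * Real.log γ := by
      push_cast
      ring
    rw [h9, Real.exp_nat_mul, Real.exp_log hγ0]
  have hγx : γ ≤ 1 / x := by
    rw [hγ]
    apply div_le_div_of_nonneg_right _ hx0.le
    nlinarith
  have hlogγ : Real.log γ = 2 * Real.log (1 - x) - Real.log x := by
    rw [hγ, Real.log_div (by nlinarith) (by linarith), Real.log_pow]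
    push_cast
    ring
  have hlog := log_bound hx0 (show x < 1 by linarith)
  have hfin : S = γ * (S * γ ^ (m * m - 1)) * Real.exp (-((m : ℝ) ^ 2 * Real.log γ)) := by
    have h10 : Real.exp ((m : ℝ) ^ 2 * Real.log γ) * Real.exp (-((m : ℝ) ^ 2 * Real.log γ)) = 1 := by
      rw [← Real.exp_add]
      simp
    calc S = S * (Real.exp ((m : ℝ) ^ 2 * Real.log γ) * Real.exp (-((m : ℝ) ^ 2 * Real.log γ))) := by
          rw [h10, mul_one]
      _ = _ := by rw [← hpow]; ring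
  rw [hfin]
  calc γ * (S * γ ^ (m * m - 1)) * Real.exp (-((m : ℝ) ^ 2 * Real.log γ)) ≤
      (1 / x) * Real.exp (2 * (m : ℝ) ^ 2 * ((1 - x) - x / (1 - x))) *
        Real.exp (-((m : ℝ) ^ 2 * Real.log γ)) := by
        apply mul_le_mul_of_nonneg_right _ (Real.exp_pos _).le
        exact mul_le_mul hγx hb5 (mul_nonneg hS0 (pow_nonneg hγ0.le _)) (by positivity)
    _ = (1 / x) * Real.exp ((m : ℝ) ^ 2 * (2 - 2 * x - 2 * (x / (1 - x)) - 2 * Real.log (1 - x) +
          Real.log x)) := by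
        rw [mul_assoc, ← Real.exp_add, hlogγ]
        congr 2
        ring
    _ ≤ _ := by
        apply mul_le_mul_of_nonneg_left _ (by positivity)
        apply Real.exp_le_exp.2
        apply mul_le_mul_of_nonneg_left _ (by positivity)
        linarith

theorem factorial_bound (n : ℕ) (hn : 1 ≤ n) :
    (n.factorial : ℝ) * Real.exp n ≤ Real.exp 1 * n * (n : ℝ) ^ n := by
  induction n, hn using Nat.le_induction with
  | base => simp
  | succ n hn ih =>
    have hn0 : (0 : ℝ) < n := by exact_mod_cast hn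
    have hkey : Real.exp 1 * (n : ℝ) ^ (n + 1) ≤ ((n : ℝ) + 1) ^ (n + 1) := by
      have h1 : Real.exp (1 / ((n : ℝ) + 1)) ≤ ((n : ℝ) + 1) / n := by
        have h2 := Real.one_sub_inv_le_log_of_pos (show 0 < ((n : ℝ) + 1) / n by positivity)
        have h3 : 1 - (((n : ℝ) + 1) / n)⁻¹ = 1 / ((n : ℝ) + 1) := by
          field_simp
          ring
        rw [h3] at h2
        calc Real.exp (1 / ((n : ℝ) + 1)) ≤ Real.exp (Real.log (((n : ℝ) + 1) / n)) :=
              Real.exp_le_exp.2 h2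
          _ = _ := Real.exp_log (by positivity)
      have h4 : Real.exp 1 = Real.exp (1 / ((n : ℝ) + 1)) ^ (n + 1) := by
        rw [← Real.exp_nat_mul]
        congr 1
        push_cast
        field_simp
      rw [h4, ← mul_pow]
      apply pow_le_pow_left₀ (by positivity)
      calc Real.exp (1 / ((n : ℝ) + 1)) * n ≤ ((n : ℝ) + 1) / n * n :=
            mul_le_mul_of_nonneg_right h1 hn0.le
        _ = _ := by field_simp
    have hf : (((n + 1).factorial : ℕ) : ℝ) = ((n : ℝ) + 1) * n.factorial := by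
      rw [Nat.factorial_succ]
      push_cast
      ring
    rw [hf]
    push_cast
    rw [Real.exp_add]
    calc ((n : ℝ) + 1) * n.factorial * (Real.exp n * Real.exp 1) =
        ((n : ℝ) + 1) * Real.exp 1 * (n.factorial * Real.exp n) := by ring
      _ ≤ ((n : ℝ) + 1) * Real.exp 1 * (Real.exp 1 * n * (n : ℝ) ^ n) :=
          mul_le_mul_of_nonneg_left ih (by positivity)
      _ = ((n : ℝ) + 1) * Real.exp 1 * (Real.exp 1 * (n : ℝ) ^ (n + 1)) := by ring
      _ ≤ ((n : ℝ) + 1) * Real.exp 1 * (((n : ℝ) + 1) ^ (n + 1)) :=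
          mul_le_mul_of_nonneg_left hkey (by positivity)
      _ = _ := by ring

/-- lower bound for the main factor -/
theorem main_factor (m W : ℕ) (hm : 1 ≤ m) (hW : 4 * m ^ 3 ≤ W) (x r : ℝ) (hx0 : 0 < x)
    (hr : r = x * (m : ℝ) ^ 2 / (2 * (W : ℝ) ^ 2)) :
    1 / 2 * Real.exp ((m : ℝ) ^ 2 * Real.log x + 2 * (m : ℝ) ^ 2 - 2 * m - 2 * m * Real.log m) ≤
      r ^ (m * m) * (((W.choose m : ℕ) : ℝ) ^ (2 * m) * 2 ^ (m * m)) := by
  have hm0 : (0 : ℝ) < m := by exact_mod_cast hm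
  have hWm3 : (4 : ℝ) * (m : ℝ) ^ 3 ≤ W := by exact_mod_cast hW
  have hmm3 : m ≤ m ^ 3 := Nat.le_self_pow (by norm_num) m
  have hmW : m ≤ W := by omega
  have hmW' : (m : ℝ) ≤ W := by exact_mod_cast hmW
  have hW0 : (0 : ℝ) < W := by linarith
  have hC := Nat.pow_le_choose (α := ℝ) m W
  have hsub : (((W + 1 - m : ℕ)) : ℝ) = (W : ℝ) + 1 - m := by
    rw [Nat.cast_sub (by omega)]
    push_cast
    ring
  rw [hsub] at hC
  have hfac : (0 : ℝ) < m.factorial := by exact_mod_cast m.factorial_pos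
  -- (m/W)^m * C(W,m) ≥ (1 - m/W)^m * exp(m-1)/m
  have hfb := factorial_bound m hm
  have hA : (1 - (m : ℝ) / W) ^ m * (Real.exp (m - 1) / m) ≤
      ((m : ℝ) / W) ^ m * ((W.choose m : ℕ) : ℝ) := by
    have h1 : (1 - (m : ℝ) / W) ^ m * ((m : ℝ) ^ m / m.factorial) ≤
        ((m : ℝ) / W) ^ m * ((W.choose m : ℕ) : ℝ) := by
      calc (1 - (m : ℝ) / W) ^ m * ((m : ℝ) ^ m / m.factorial) =
          ((m : ℝ) / W) ^ m * (((W : ℝ) - m) ^ m / m.factorial) := by
            have : 1 - (m : ℝ) / W = ((W : ℝ) - m) / W := by field_simp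
            rw [this, div_pow, div_pow]
            ring
        _ ≤ ((m : ℝ) / W) ^ m * (((W : ℝ) + 1 - m) ^ m / m.factorial) := by
            apply mul_le_mul_of_nonneg_left _ (by positivity)
            apply div_le_div_of_nonneg_right _ hfac.le
            apply pow_le_pow_left₀ (by linarith)
            linarith
        _ ≤ _ := mul_le_mul_of_nonneg_left hC (by positivity)
    refine le_trans ?_ h1
    apply mul_le_mul_of_nonneg_left
    · rw [Real.exp_sub, div_div, div_le_div_iff₀ (by positivity) hfac]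
      linarith
    · apply pow_nonneg
      rw [sub_nonneg, div_le_one hW0]
      exact hmW'
  have hB : ((1 - (m : ℝ) / W) ^ m * (Real.exp (m - 1) / m)) ^ (2 * m) ≤
      (((m : ℝ) / W) ^ m * ((W.choose m : ℕ) : ℝ)) ^ (2 * m) := by
    apply pow_le_pow_left₀ _ hA
    apply mul_nonneg
    · apply pow_nonneg
      rw [sub_nonneg, div_le_one hW0]
      exact hmW'
    · positivity
  have hhalf : (1 : ℝ) / 2 ≤ (1 - (m : ℝ) / W) ^ (m * (2 * m)) := by
    have h2 := one_add_mul_le_pow (a := -((m : ℝ) / W)) (by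
      have : (m : ℝ) / W ≤ 1 := by rw [div_le_one hW0]; exact hmW'
      linarith) (m * (2 * m))
    have h3 : (1 : ℝ) + ((m * (2 * m) : ℕ) : ℝ) * (-((m : ℝ) / W)) = 1 - 2 * (m : ℝ) ^ 3 / W := by
      push_cast
      ring
    rw [h3] at h2
    have h4 : 2 * (m : ℝ) ^ 3 / W ≤ 1 / 2 := by
      rw [div_le_iff₀ hW0]
      linarith
    have h5 : (1 : ℝ) + -((m : ℝ) / W) = 1 - (m : ℝ) / W := by ring
    rw [h5] at h2
    linarith
  have hE : (Real.exp (m - 1) / m) ^ (2 * m) =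
      Real.exp (2 * (m : ℝ) ^ 2 - 2 * m - 2 * m * Real.log m) := by
    have : Real.exp ((m : ℝ) - 1) / m = Real.exp ((m : ℝ) - 1 - Real.log m) := by
      rw [Real.exp_sub _ (Real.log m), Real.exp_log hm0]
    rw [this, ← Real.exp_nat_mul]
    congr 1
    push_cast
    ring
  have hXx : x ^ (m * m) = Real.exp ((m : ℝ) ^ 2 * Real.log x) := by
    have : (m : ℝ) ^ 2 * Real.log x = ((m * m : ℕ) : ℝ) * Real.log x := by
      push_cast
      ring
    rw [this, Real.exp_nat_mul, Real.exp_log hx0]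
  have hL : r ^ (m * m) * (((W.choose m : ℕ) : ℝ) ^ (2 * m) * 2 ^ (m * m)) =
      x ^ (m * m) * (((m : ℝ) / W) ^ m * ((W.choose m : ℕ) : ℝ)) ^ (2 * m) := by
    have h6 : 2 * r = x * ((m : ℝ) / W) ^ 2 := by
      rw [hr, div_pow]
      ring
    calc r ^ (m * m) * (((W.choose m : ℕ) : ℝ) ^ (2 * m) * 2 ^ (m * m)) =
        (2 * r) ^ (m * m) * ((W.choose m : ℕ) : ℝ) ^ (2 * m) := by
          rw [mul_pow]
          ring
      _ = _ := by
          rw [h6, mul_pow, mul_pow, ← pow_mul, ← pow_mul]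
          have : 2 * (m * m) = m * (2 * m) := by ring
          rw [this]
          ring
  rw [hL]
  have hT : Real.exp ((m : ℝ) ^ 2 * Real.log x + 2 * (m : ℝ) ^ 2 - 2 * m - 2 * m * Real.log m) =
      x ^ (m * m) * (Real.exp (m - 1) / m) ^ (2 * m) := by
    rw [hXx, hE, ← Real.exp_add]
    congr 1
    ring
  rw [hT]
  calc 1 / 2 * (x ^ (m * m) * (Real.exp (m - 1) / m) ^ (2 * m)) ≤
      (1 - (m : ℝ) / W) ^ (m * (2 * m)) * (x ^ (m * m) * (Real.exp (m - 1) / m) ^ (2 * m)) :=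
        mul_le_mul_of_nonneg_right hhalf (by positivity)
    _ = x ^ (m * m) * ((1 - (m : ℝ) / W) ^ m * (Real.exp (m - 1) / m)) ^ (2 * m) := by
        rw [mul_pow, ← pow_mul]
        ring
    _ ≤ _ := mul_le_mul_of_nonneg_left hB (by positivity)

theorem card_QQ (m W : ℕ) : ((QQ m W).card : ℝ) =
    ((W.choose m : ℕ) : ℝ) ^ (2 * m) * 2 ^ (m * m) := by
  have h := sum_QQ (m := m) (W := W) (fun _ => (1 : ℝ))
  rw [Finset.sum_const, nsmul_eq_mul, mul_one] at h
  rw [h, Finset.sum_const, nsmul_eq_mul, Finset.sum_const, nsmul_eq_mul, mul_one, card_ZZ,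
    card_univ]
  rw [Fintype.card_fun, Fintype.card_prod, Fintype.card_fin, Fintype.card_bool]
  push_cast
  rfl

/-- lower bound for the probability of the grid pattern -/
theorem grid_lower : ∃ x₀ : ℝ, 0 < x₀ ∧ x₀ ≤ 1 / 1024 ∧ ∀ x : ℝ, 0 < x → x ≤ x₀ →
    ∀ m : ℕ, 1000 ≤ m → ∃ W : ℕ, m ≤ W ∧ ∀ r : ℝ, r = x * (m : ℝ) ^ 2 / (2 * (W : ℝ) ^ 2) →
    1 / 4 * Real.exp ((m : ℝ) ^ 2 * (Real.log x + 2 - 2 * x - 0.7 * x ^ 2) - 2 * m -
      2 * m * Real.log m) ≤
      ∑ ω : Finset (Pt (m * W)), if CF ω ∧ Has (gridPerm m) ω then wt r ω else 0 := by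
  obtain ⟨x₀, hx₀, hx₀', H⟩ := avg_lower
  refine ⟨x₀, hx₀, hx₀', ?_⟩
  intro x hx0 hx m hm
  -- choice of W
  obtain ⟨W₁, hW₁⟩ := exists_nat_ge (2 * (2 * x * (m : ℝ) ^ 5 + x ^ 2 * (m : ℝ) ^ 7) *
    Real.exp ((m : ℝ) * m * (2 * x + 0.7 * x ^ 2)))
  set W : ℕ := W₁ + 1000 * m + 4 * m ^ 3 with hWdef
  have hW₁' : 2 * (2 * x * (m : ℝ) ^ 5 + x ^ 2 * (m : ℝ) ^ 7) *
    Real.exp ((m : ℝ) * m * (2 * x + 0.7 * x ^ 2)) ≤ W := by
    refine hW₁.trans ?_
    have : W₁ ≤ W := by omega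
    exact_mod_cast this
  have hWa : 1000 * m ≤ W := by omega
  have hWb : 4 * m ^ 3 ≤ W := by omega
  clear_value W
  refine ⟨W, by omega, ?_⟩
  intro r hr
  have hm' : (1000 : ℝ) ≤ m := by exact_mod_cast hm
  have hW' : (1000 : ℝ) * m ≤ W := by exact_mod_cast hWa
  have hm0 : (0 : ℝ) < m := by linarith
  have hW0 : (0 : ℝ) < W := by nlinarith
  have hr0 : 0 ≤ r := by rw [hr]; positivity
  have hr1 : r ≤ 1 := by
    rw [hr, div_le_iff₀ (by positivity)]
    have h3 : (1000 * (m : ℝ)) ^ 2 ≤ (W : ℝ) ^ 2 := pow_le_pow_left₀ (by positivity) hW' 2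
    have h4 : 0 ≤ (m : ℝ) ^ 2 := by positivity
    have h5 : x ≤ 1 := by linarith
    nlinarith
  have hT := transport m W r hr0 hr1
  have hT' : (∑ ω : Finset (Site m W), if CFS ω ∧ ∃ q, Valid q ∧ sites q ⊆ ω then wt r ω else 0) ≤
      ∑ ω : Finset (Pt (m * W)), if CF ω ∧ Has (gridPerm m) ω then wt r ω else 0 :=
    le_of_eq_of_le (Finset.sum_congr rfl fun ω _ => by congr)
      (le_of_le_of_eq hT (Finset.sum_congr rfl fun ω _ => by congr))
  refine le_trans ?_ hT'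
  refine le_trans ?_ (exist_lower r hr0 hr1)
  rw [← Finset.mul_sum, Finset.sum_sub_distrib, Finset.sum_const, nsmul_eq_mul, card_QQ]
  have hAvg := H x hx0 hx m hm W hWa r hr
  set B : ℝ := ((W.choose m : ℕ) : ℝ) ^ (2 * m) * 2 ^ (m * m) with hB
  have hB0 : 0 ≤ B := by positivity
  set E : ℝ := Real.exp (-((m : ℝ) * m * (2 * x + 0.7 * x ^ 2))) with hEdef
  have hE0 : 0 < E := Real.exp_pos _
  set err : ℝ := 4 * ((m : ℝ) * m) * (m * W) * r + 4 * ((m : ℝ) * W) ^ 3 * r ^ 2 with herr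
  have herrv : err = (2 * x * (m : ℝ) ^ 5 + x ^ 2 * (m : ℝ) ^ 7) / W := by
    rw [herr, hr]
    field_simp
    ring
  have herr2 : err ≤ E / 2 := by
    rw [herrv, div_le_iff₀ hW0]
    have h6 : E * Real.exp ((m : ℝ) * m * (2 * x + 0.7 * x ^ 2)) = 1 := by
      rw [hEdef, ← Real.exp_add]
      simp
    have h7 := mul_le_mul_of_nonneg_left hW₁' hE0.le
    have h8 : E * (2 * (2 * x * (m : ℝ) ^ 5 + x ^ 2 * (m : ℝ) ^ 7) *
      Real.exp ((m : ℝ) * m * (2 * x + 0.7 * x ^ 2))) =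
      2 * (2 * x * (m : ℝ) ^ 5 + x ^ 2 * (m : ℝ) ^ 7) *
      (E * Real.exp ((m : ℝ) * m * (2 * x + 0.7 * x ^ 2))) := by ring
    rw [h8, h6] at h7
    linarith
  have hmf := main_factor m W (by omega) hWb x r hx0 hr
  rw [← hB] at hmf
  have hmain : r ^ (m * m) * (B * (E / 2)) ≤ r ^ (m * m) *
      (∑ q ∈ QQ m W, ∏ q' ∈ VV q, (1 - r ^ (mv q q').card) - B * err) := by
    apply mul_le_mul_of_nonneg_left _ (pow_nonneg hr0 _)
    have h9 : B * err ≤ B * (E / 2) := mul_le_mul_of_nonneg_left herr2 hB0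
    linarith
  refine le_trans ?_ hmain
  have h10 : r ^ (m * m) * (B * (E / 2)) = (r ^ (m * m) * B) * (E / 2) := by ring
  rw [h10]
  calc 1 / 4 * Real.exp ((m : ℝ) ^ 2 * (Real.log x + 2 - 2 * x - 0.7 * x ^ 2) - 2 * m -
      2 * m * Real.log m) =
      (1 / 2 * Real.exp ((m : ℝ) ^ 2 * Real.log x + 2 * (m : ℝ) ^ 2 - 2 * m -
        2 * m * Real.log m)) * (E / 2) := by
        rw [hEdef]
        have : Real.exp ((m : ℝ) ^ 2 * (Real.log x + 2 - 2 * x - 0.7 * x ^ 2) - 2 * m -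
          2 * m * Real.log m) = Real.exp ((m : ℝ) ^ 2 * Real.log x + 2 * (m : ℝ) ^ 2 - 2 * m -
          2 * m * Real.log m) * Real.exp (-((m : ℝ) * m * (2 * x + 0.7 * x ^ 2))) := by
          rw [← Real.exp_add]
          congr 1
          ring
        rw [this]
        ring
    _ ≤ _ := mul_le_mul_of_nonneg_right hmf (by positivity)

end

end Pool.Agent.Helper124.SW
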