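import Pool.Agent.Helper124.SWMid

/-!
At some moderate length more permutations contain the grid permutation.
-/

namespace Pool.Agent.Helper124.SW

open Finset Classical

noncomputable section

theorem final_ineq (x : ℝ) (hx0 : 0 < x) (hx1 : x ≤ 1 / 1024) : ∃ M : ℕ, ∀ m : ℕ, M ≤ m →
    (1 / x) * Real.exp ((m : ℝ) ^ 2 * (2 - 2 * x - x ^ 2 + Real.log x)) +
      Real.exp (x * (m : ℝ) ^ 4) / 2 ^ (4 * m ^ 4) <
    1 / 4 * Real.exp ((m : ℝ) ^ 2 * (Real.log x + 2 - 2 * x - 0.7 * x ^ 2) - 2 * m -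
      2 * m * Real.log m) := by
  have hlo := Real.isLittleO_log_id_atTop.bound (show 0 < 0.025 * x ^ 2 by positivity)
  have hlo2 := tendsto_natCast_atTop_atTop (R := ℝ) |>.eventually hlo
  obtain ⟨M₁, hM₁⟩ := Filter.eventually_atTop.1 hlo2
  obtain ⟨M₂, hM₂⟩ := exists_nat_ge (20 / x ^ 2)
  obtain ⟨M₃, hM₃⟩ := exists_nat_ge ((Real.log (1 / x) + Real.log 16) / (0.1 * x ^ 2))
  refine ⟨M₁ + M₂ + M₃ + 1, ?_⟩
  intro m hm
  have hm1 : (1 : ℝ) ≤ m := by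
    have : 1 ≤ m := by omega
    exact_mod_cast this
  have hm0 : (0 : ℝ) < m := by linarith
  have hx2 : 0 < x ^ 2 := by positivity
  have hlogx : 0 ≤ Real.log (1 / x) := by
    apply Real.log_nonneg
    rw [le_div_iff₀ hx0]
    linarith
  have hlog16 : 0 ≤ Real.log 16 := Real.log_nonneg (by norm_num)
  have hlogm : 0 ≤ Real.log m := Real.log_nonneg hm1
  have ha : Real.log (1 / x) + Real.log 16 ≤ 0.1 * x ^ 2 * (m : ℝ) ^ 2 := by
    have h1 : (Real.log (1 / x) + Real.log 16) / (0.1 * x ^ 2) ≤ m := by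
      refine hM₃.trans ?_
      have : M₃ ≤ m := by omega
      exact_mod_cast this
    rw [div_le_iff₀ (by positivity)] at h1
    have h2 : (m : ℝ) ≤ (m : ℝ) ^ 2 := by nlinarith
    have h3 : 0.1 * x ^ 2 * (m : ℝ) ≤ 0.1 * x ^ 2 * (m : ℝ) ^ 2 :=
      mul_le_mul_of_nonneg_left h2 (by positivity)
    linarith
  have hb : 2 * (m : ℝ) ≤ 0.1 * x ^ 2 * (m : ℝ) ^ 2 := by
    have h1 : 20 / x ^ 2 ≤ m := by
      refine hM₂.trans ?_
      have : M₂ ≤ m := by omega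
      exact_mod_cast this
    rw [div_le_iff₀ hx2] at h1
    have h2 := mul_le_mul_of_nonneg_right h1 hm0.le
    nlinarith
  have hc : 2 * (m : ℝ) * Real.log m ≤ 0.05 * x ^ 2 * (m : ℝ) ^ 2 := by
    have h1 := hM₁ m (by omega)
    simp only [id, Real.norm_eq_abs] at h1
    rw [abs_of_nonneg hlogm, abs_of_pos hm0] at h1
    have h2 := mul_le_mul_of_nonneg_left h1 (show (0 : ℝ) ≤ 2 * m by positivity)
    linarith
  set T : ℝ := Real.exp ((m : ℝ) ^ 2 * (Real.log x + 2 - 2 * x - 0.7 * x ^ 2) - 2 * m -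
      2 * m * Real.log m) with hT
  have hT0 : 0 < T := Real.exp_pos _
  have hlog1 : Real.log (1 / x) = - Real.log x := by
    rw [one_div, Real.log_inv]
  have p1 : (1 / x) * Real.exp ((m : ℝ) ^ 2 * (2 - 2 * x - x ^ 2 + Real.log x)) ≤ 1 / 16 * T := by
    have e1 : 1 / x = Real.exp (Real.log (1 / x)) := (Real.exp_log (by positivity)).symm
    have e2 : (1 : ℝ) / 16 = Real.exp (-Real.log 16) := by
      rw [Real.exp_neg, Real.exp_log (by norm_num)]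
      norm_num
    rw [e1, e2, hT, ← Real.exp_add, ← Real.exp_add]
    apply Real.exp_le_exp.2
    have e3 : (m : ℝ) ^ 2 * (2 - 2 * x - x ^ 2 + Real.log x) =
      (m : ℝ) ^ 2 * (Real.log x + 2 - 2 * x - 0.7 * x ^ 2) - 0.3 * x ^ 2 * (m : ℝ) ^ 2 := by ring
    rw [e3]
    have : 0 ≤ x ^ 2 * (m : ℝ) ^ 2 := by positivity
    linarith
  have p2 : Real.exp (x * (m : ℝ) ^ 4) / 2 ^ (4 * m ^ 4) ≤ 1 / 16 * T := by
    have e2 : (1 : ℝ) / 16 = Real.exp (-Real.log 16) := by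
      rw [Real.exp_neg, Real.exp_log (by norm_num)]
      norm_num
    have e4 : (2 : ℝ) ^ (4 * m ^ 4) = Real.exp (4 * (m : ℝ) ^ 4 * Real.log 2) := by
      have : 4 * (m : ℝ) ^ 4 * Real.log 2 = ((4 * m ^ 4 : ℕ) : ℝ) * Real.log 2 := by
        push_cast
        ring
      rw [this, Real.exp_nat_mul, Real.exp_log (by norm_num)]
    rw [e4, ← Real.exp_sub, e2, hT, ← Real.exp_add]
    apply Real.exp_le_exp.2
    have hl2 := Real.log_two_gt_d9
    have hm4 : 0 ≤ (m : ℝ) ^ 4 := by positivity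
    have q1 : 4 * (m : ℝ) ^ 4 * Real.log 2 ≥ 2.7 * (m : ℝ) ^ 4 := by nlinarith
    have q2 : x * (m : ℝ) ^ 4 ≤ 0.1 * (m : ℝ) ^ 4 := by
      apply mul_le_mul_of_nonneg_right _ hm4
      linarith
    have q3 : (m : ℝ) ^ 2 ≤ (m : ℝ) ^ 4 := by
      have h1 : (1 : ℝ) ≤ (m : ℝ) ^ 2 := one_le_pow₀ hm1
      have h2 : (m : ℝ) ^ 4 = (m : ℝ) ^ 2 * (m : ℝ) ^ 2 := by ring
      rw [h2]
      nlinarith
    have q4 : x ^ 2 ≤ 1 := by nlinarith
    have q5 : x ^ 2 * (m : ℝ) ^ 2 ≤ (m : ℝ) ^ 2 := by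
      have : 0 ≤ (m : ℝ) ^ 2 := by positivity
      nlinarith
    -- log(1/x) m^2 ≤ 0.1 m^4
    have q6 : Real.log (1 / x) * (m : ℝ) ^ 2 ≤ 0.1 * (m : ℝ) ^ 4 := by
      have h1 : Real.log (1 / x) ≤ 0.1 * (m : ℝ) ^ 2 := by
        linarith
      have h2 : 0 ≤ (m : ℝ) ^ 2 := by positivity
      have h3 := mul_le_mul_of_nonneg_right h1 h2
      have h4 : 0.1 * (m : ℝ) ^ 2 * (m : ℝ) ^ 2 = 0.1 * (m : ℝ) ^ 4 := by ring
      linarith
    have q7 : Real.log 16 ≤ 0.1 * (m : ℝ) ^ 2 := by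
      linarith
    have q8 : (m : ℝ) ^ 2 * (Real.log x + 2 - 2 * x - 0.7 * x ^ 2) ≥
        - (Real.log (1 / x) * (m : ℝ) ^ 2) := by
      rw [hlog1]
      have h2 : 0 ≤ (m : ℝ) ^ 2 := by positivity
      have h3 : 0 ≤ 2 - 2 * x - 0.7 * x ^ 2 := by linarith
      have h4 := mul_nonneg h2 h3
      linarith
    linarith
  linarith

theorem switch_mid : ∃ M : ℕ, ∀ m : ℕ, M ≤ m → ∃ n : ℕ, n ≤ 4 * m ^ 4 ∧
    X n (1 : Equiv.Perm (Fin (m * m - 1))) < X n (gridPerm m) := by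
  obtain ⟨x, hx0, hx1, H⟩ := grid_lower
  obtain ⟨M, hM⟩ := final_ineq x hx0 hx1
  refine ⟨M + 1000, ?_⟩
  intro m hm
  obtain ⟨W, hmW, hW⟩ := H x hx0 le_rfl m (by omega)
  by_contra hcon
  push Not at hcon
  have hm' : (1000 : ℝ) ≤ m := by
    have : 1000 ≤ m := by omega
    exact_mod_cast this
  have hm0 : (0 : ℝ) < m := by linarith
  have hmW' : (m : ℝ) ≤ W := by exact_mod_cast hmW
  have hW0 : (0 : ℝ) < W := by linarith
  set r : ℝ := x * (m : ℝ) ^ 2 / (2 * (W : ℝ) ^ 2) with hr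
  have hr0 : 0 ≤ r := by rw [hr]; positivity
  have hr1 : r ≤ 1 := by
    rw [hr, div_le_iff₀ (by positivity)]
    have h3 : (m : ℝ) ^ 2 ≤ (W : ℝ) ^ 2 := pow_le_pow_left₀ hm0.le hmW' 2
    have h4 : (0 : ℝ) < (W : ℝ) ^ 2 := by positivity
    nlinarith
  have h1 := compare (m * W) (4 * m ^ 4) (1 : Equiv.Perm (Fin (m * m - 1))) (gridPerm m) r hr0 hr1
    hcon
  have h2 := tail_bound (m * W) (4 * m ^ 4) r hr0 hr1
  have h3 := id_upper m W (by omega) hmW x r hx0 (by linarith) hr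
  have h4 := hW r hr
  have h5 : 2 * (((m * W : ℕ)) : ℝ) ^ 2 * r = x * (m : ℝ) ^ 4 := by
    rw [hr]
    push_cast
    field_simp
  rw [h5] at h2
  have h6 := hM m (by omega)
  linarith

end

end Pool.Agent.Helper124.SW
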